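import Mathlib
import Pool.Agent.H10.SF.A

set_option linter.unusedSectionVars false

namespace Pool.Agent.H10.SF2

open Equiv Equiv.Perm Pool.Agent.H10.SF

/-- The last element of `W` before a point of the cycle. -/
theorem B_last {V : Type} [Fintype V] [DecidableEq V] (s : Perm V)
    (hs : ∀ x y, SameCycle s x y) (W : Finset V) (hne : W.Nonempty) :
    ∃ lk : V → {w // w ∈ W}, (∀ w : {w // w ∈ W}, lk w = w) ∧
      (∀ x, s x ∉ W → lk (s x) = lk x) ∧
      (∀ w w' : {w // w ∈ W}, lk (s.symm w) = lk (s.symm w') → w = w') := by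
  classical
  have hex : ∀ x, ∃ w : {w // w ∈ W}, ∃ k : ℕ, (s ^ k) w = x ∧
      ∀ m, 1 ≤ m → m ≤ k → (s ^ m) w ∉ W := by
    intro x
    have h1 : ∃ k : ℕ, ∃ w ∈ W, (s ^ k) w = x := by
      obtain ⟨w, hw⟩ := hne
      obtain ⟨k, _, hk⟩ := (hs w x).exists_pow_eq'
      exact ⟨k, w, hw, hk⟩
    obtain ⟨w, hw, hk⟩ := Nat.find_spec h1
    refine ⟨⟨w, hw⟩, Nat.find h1, hk, ?_⟩
    intro m hm1 hm2 hmW
    refine Nat.find_min h1 (m := Nat.find h1 - m) (by omega) ⟨_, hmW, ?_⟩
    rw [← mul_apply, ← pow_add, Nat.sub_add_cancel hm2]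
    exact hk
  have huniq : ∀ (w w' : {w // w ∈ W}) (k k' : ℕ), (s ^ k) (w : V) = (s ^ k') (w' : V) →
      (∀ m, 1 ≤ m → m ≤ k → (s ^ m) (w : V) ∉ W) →
      (∀ m, 1 ≤ m → m ≤ k' → (s ^ m) (w' : V) ∉ W) → k ≤ k' → w = w' := by
    intro w w' k k' h _ h2 hkk
    have h3 : (w : V) = (s ^ (k' - k)) (w' : V) := by
      apply (s ^ k).injective
      rw [h, ← mul_apply, ← pow_add, Nat.add_sub_cancel' hkk]
    rcases Nat.eq_zero_or_pos (k' - k) with h4 | h4
    · rw [h4, pow_zero] at h3
      exact Subtype.ext h3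
    · exact absurd (h3 ▸ w.2) (h2 (k' - k) h4 (Nat.sub_le _ _))
  have huniq2 : ∀ (w w' : {w // w ∈ W}) (k k' : ℕ), (s ^ k) (w : V) = (s ^ k') (w' : V) →
      (∀ m, 1 ≤ m → m ≤ k → (s ^ m) (w : V) ∉ W) →
      (∀ m, 1 ≤ m → m ≤ k' → (s ^ m) (w' : V) ∉ W) → w = w' := by
    intro w w' k k' h h1 h2
    rcases le_total k k' with h3 | h3
    · exact huniq w w' k k' h h1 h2 h3
    · exact (huniq w' w k' k h.symm h2 h1 h3).symm
  choose lk K hK1 hK2 using hex
  refine ⟨lk, ?_, ?_, ?_⟩
  · intro w
    refine huniq2 (lk w) w (K w) 0 ?_ (hK2 w) ?_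
    · rw [hK1]; rfl
    · intro m h1 h2; omega
  · intro x hx
    refine huniq2 (lk (s x)) (lk x) (K (s x)) (K x + 1) ?_ (hK2 (s x)) ?_
    · rw [hK1, pow_succ', mul_apply, hK1]
    · intro m h1 h2
      rcases Nat.lt_or_ge (K x) m with h3 | h3
      · have : m = K x + 1 := by omega
        rw [this, pow_succ', mul_apply, hK1]
        exact hx
      · exact hK2 x m h1 h3
  · intro w w' h
    have e1 : (s ^ (K (s.symm w) + 1)) (lk (s.symm w) : V) = w := by
      rw [pow_succ', mul_apply, hK1, Equiv.apply_symm_apply]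
    have e2 : (s ^ (K (s.symm w') + 1)) (lk (s.symm w) : V) = w' := by
      rw [h, pow_succ', mul_apply, hK1, Equiv.apply_symm_apply]
    rcases lt_trichotomy (K (s.symm w)) (K (s.symm w')) with h1 | h1 | h1
    · exfalso
      have h2 := hK2 (s.symm w') (K (s.symm w) + 1) (by omega) (by omega)
      rw [← h, e1] at h2
      exact h2 w.2
    · rw [h1] at e1
      exact Subtype.ext (e1.symm.trans e2)
    · exfalso
      have h2 := hK2 (s.symm w) (K (s.symm w') + 1) (by omega) (by omega)
      rw [e2] at h2
      exact h2 w'.2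

/-- The improvement step for an arbitrary symmetric relation of marked edges: the hub edges are
unmarked, every link end has a hub with a marked edge. The new cycle keeps all edges outside the
hubs, its new edges are marked edges between a link end and a hub, and it has more marked edges. -/
theorem improve {V : Type} [Fintype V] [DecidableEq V] (mk : V → V → Prop) [DecidableRel mk]
    (hmk : ∀ x y, mk x y → mk y x)
    (s : Perm V) (hs : ∀ x y, SameCycle s x y)
    (W : Finset V) (hne : W.Nonempty) (hW : ∀ w ∈ W, s w ∉ W)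
    (hcross : ∀ w ∈ W, ¬ mk (s w) w ∧ ¬ mk (s.symm w) w)
    (hub : ∀ w ∈ W, (∃ u ∈ W, mk (s w) u) ∧ ∃ u ∈ W, mk (s.symm w) u) :
    ∃ π : Perm V, (∀ x y, SameCycle π x y) ∧
      (∀ x, π x = s x ∨ s (π x) = x ∨
        (mk x (π x) ∧ ((x ∈ W ∧ π x ∉ W) ∨ (x ∉ W ∧ π x ∈ W)))) ∧
      (∀ x, x ∉ W → s x ∉ W → π x = s x ∨ π (s x) = x) ∧
      (∀ w ∈ W, π w ∉ W) ∧
      (Finset.univ.filter (fun x => mk x (s x))).card <
        (Finset.univ.filter (fun x => mk x (π x))).card := by
  classical
  obtain ⟨lk, lk1, lk2, lk3⟩ := B_last s hs W hne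
  -- the previous hub, the next hub
  have hinj : Function.Injective (fun w : {w // w ∈ W} => lk (s.symm w)) := fun w w' h => lk3 w w' h
  let pv : Perm {w // w ∈ W} := Equiv.ofBijective _ (Finite.injective_iff_bijective.1 hinj)
  let nx : Perm {w // w ∈ W} := pv.symm
  have hpv : ∀ w, pv w = lk (s.symm w) := fun w => rfl
  have hnx : ∀ x (hx : s x ∈ W), nx (lk x) = ⟨s x, hx⟩ := by
    intro x hx
    change pv.symm (lk x) = _
    rw [Equiv.symm_apply_eq, hpv]
    simp
  have hnx2 : ∀ l, lk (s.symm (nx l)) = l := by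
    intro l
    rw [← hpv]
    exact Equiv.apply_symm_apply pv l
  have hsymm : ∀ w : {w // w ∈ W}, s.symm (w : V) ∉ W := by
    intro w h
    have := hW _ h
    rw [Equiv.apply_symm_apply] at this
    exact this w.2
  -- transitivity
  have hstep : ∀ x, SameCycle nx (lk x) (lk (s x)) := by
    intro x
    by_cases hx : s x ∈ W
    · rw [lk1 ⟨s x, hx⟩, ← hnx x hx, sameCycle_apply_right]
    · rw [lk2 x hx]
  have htr0 : ∀ (k : ℕ) (x : V), SameCycle nx (lk x) (lk ((s ^ k) x)) := by
    intro k
    induction k with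
    | zero => intro x; exact SameCycle.refl _ _
    | succ k ih =>
      intro x
      refine (ih x).trans ?_
      rw [pow_succ', mul_apply]
      exact hstep _
  have htr : ∀ x y, SameCycle nx x y := by
    intro x y
    obtain ⟨k, _, hk⟩ := (hs (x : V) (y : V)).exists_pow_eq'
    have := htr0 k (x : V)
    rw [hk, lk1, lk1] at this
    exact this
  -- the alternative hubs
  let vtx : {w // w ∈ W} → Bool → V := fun l b => if b then s.symm (nx l) else s l
  have hub' : ∀ l b, ∃ u : {w // w ∈ W}, mk (vtx l b) u := by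
    intro l b
    cases b
    · obtain ⟨u, hu, hm⟩ := (hub l l.2).1
      exact ⟨⟨u, hu⟩, hm⟩
    · obtain ⟨u, hu, hm⟩ := (hub (nx l) (nx l).2).2
      exact ⟨⟨u, hu⟩, hm⟩
  choose alt halt using hub'
  have ha0 : ∀ l, alt l false ≠ l := by
    intro l h
    have h1 := halt l false
    rw [h] at h1
    exact (hcross l l.2).1 h1
  have ha1 : ∀ l, alt l true ≠ nx l := by
    intro l h
    have h1 := halt l true
    rw [h] at h1
    exact (hcross (nx l) (nx l).2).2 h1
  obtain ⟨w0, hw0⟩ := hne
  obtain ⟨o, σ, τ, hσ, hτ, hcyc, lm, hmove⟩ := parity ⟨w0, hw0⟩ nx htr alt ha0 ha1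
  -- entry and exit vertices
  have hvW : ∀ l b, vtx l b ∉ W := by
    intro l b
    cases b
    · exact hW l l.2
    · exact hsymm (nx l)
  have hlv : ∀ l b, lk (vtx l b) = l := by
    intro l b
    cases b
    · change lk (s l) = l
      rw [lk2 _ (hW l l.2), lk1]
    · exact hnx2 l
  -- the new map
  let g : V → V := fun x =>
    if hx : x ∈ W then vtx (σ.symm ⟨x, hx⟩) (o (σ.symm ⟨x, hx⟩))
    else if o (lk x) then (if s.symm x ∈ W then (τ (lk x) : V) else s.symm x)
    else (if s x ∈ W then (τ (lk x) : V) else s x)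
  have g1 : ∀ l, g (σ l) = vtx l (o l) := by
    intro l
    change (if hx : (σ l : V) ∈ W then _ else _) = _
    rw [dif_pos (σ l).2]
    have : σ.symm ⟨(σ l : V), (σ l).2⟩ = l := σ.symm_apply_apply l
    rw [this]
  have g2 : ∀ l, g (vtx l (!o l)) = τ l := by
    intro l
    change (if hx : vtx l (!o l) ∈ W then _ else _) = _
    rw [dif_neg (hvW _ _), hlv]
    cases ho : o l
    · rw [if_neg (by simp), if_pos]
      change s (s.symm (nx l)) ∈ W
      rw [Equiv.apply_symm_apply]
      exact (nx l).2
    · rw [if_pos rfl, if_pos]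
      change s.symm (s l) ∈ W
      rw [Equiv.symm_apply_apply]
      exact l.2
  have g3 : ∀ x, x ∉ W → s x ∉ W → o (lk x) = false → g x = s x := by
    intro x hx hsx ho
    change (if hx : x ∈ W then _ else _) = _
    rw [dif_neg hx, ho, if_neg (by simp), if_neg hsx]
  have g4 : ∀ x, x ∉ W → s x ∉ W → o (lk x) = true → g (s x) = x := by
    intro x hx hsx ho
    change (if hx : s x ∈ W then _ else _) = _
    rw [dif_neg hsx, lk2 x hsx, ho, if_pos rfl, if_neg, Equiv.symm_apply_apply]
    rw [Equiv.symm_apply_apply]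
    exact hx
  -- every vertex is in a nice position
  have hcase : ∀ x, x ∉ W → (∃ l, x = vtx l true) ∨ s x ∉ W := by
    intro x _
    by_cases hsx : s x ∈ W
    · left
      refine ⟨lk x, ?_⟩
      change x = s.symm (nx (lk x))
      rw [hnx x hsx, Equiv.symm_apply_apply]
    · exact Or.inr hsx
  have hcase' : ∀ x, x ∉ W → (∃ l, x = vtx l false) ∨ s.symm x ∉ W := by
    intro x _
    by_cases hsx : s.symm x ∈ W
    · left
      refine ⟨⟨s.symm x, hsx⟩, ?_⟩
      change x = s (s.symm x)
      rw [Equiv.apply_symm_apply]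
    · exact Or.inr hsx
  have hsurj : Function.Surjective g := by
    intro y
    by_cases hy : y ∈ W
    · refine ⟨vtx (τ.symm ⟨y, hy⟩) (!o (τ.symm ⟨y, hy⟩)), ?_⟩
      rw [g2, Equiv.apply_symm_apply]
    · cases ho : o (lk y)
      · rcases hcase' y hy with ⟨l, hl⟩ | h
        · refine ⟨σ l, ?_⟩
          rw [hl, hlv] at ho
          rw [g1, ho, hl]
        · refine ⟨s.symm y, ?_⟩
          have h2 : lk y = lk (s.symm y) := by
            have := lk2 (s.symm y) (by rw [Equiv.apply_symm_apply]; exact hy)
            rw [Equiv.apply_symm_apply] at this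
            exact this
          rw [g3 (s.symm y) h (by rw [Equiv.apply_symm_apply]; exact hy) (by rw [← h2]; exact ho),
            Equiv.apply_symm_apply]
      · rcases hcase y hy with ⟨l, hl⟩ | h
        · refine ⟨σ l, ?_⟩
          rw [hl, hlv] at ho
          rw [g1, ho, hl]
        · exact ⟨s y, g4 y hy h ho⟩
  let π : Perm V := Equiv.ofBijective g (Finite.surjective_iff_bijective.1 hsurj)
  have hπ : ∀ x, π x = g x := fun x => rfl
  have R1 : ∀ l, SameCycle π (σ l) (vtx l (o l)) := by
    intro l
    rw [← g1, ← hπ, sameCycle_apply_right]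
  have R2 : ∀ l, SameCycle π (vtx l (!o l)) (τ l) := by
    intro l
    rw [← g2, ← hπ, sameCycle_apply_right]
  have R3 : ∀ x, x ∉ W → s x ∉ W → SameCycle π x (s x) := by
    intro x hx hsx
    cases ho : o (lk x)
    · rw [← g3 x hx hsx ho, ← hπ, sameCycle_apply_right]
    · have h1 := g4 x hx hsx ho
      rw [← hπ] at h1
      have h2 : SameCycle π (s x) (π (s x)) := by rw [sameCycle_apply_right]
      rw [h1] at h2
      exact h2.symm
  have R4 : ∀ x, x ∈ W ∨ SameCycle π x (vtx (lk x) false) := by
    have hind : ∀ k : ℕ, (s ^ k) w0 ∈ W ∨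
        SameCycle π ((s ^ k) w0) (vtx (lk ((s ^ k) w0)) false) := by
      intro k
      induction k with
      | zero => left; simpa using hw0
      | succ k ih =>
        rw [pow_succ', mul_apply]
        by_cases h1 : s ((s ^ k) w0) ∈ W
        · exact Or.inl h1
        right
        rw [lk2 _ h1]
        rcases ih with ih | ih
        · rw [lk1 ⟨(s ^ k) w0, ih⟩]
          exact SameCycle.refl _ _
        · by_cases h2 : (s ^ k) w0 ∈ W
          · rw [lk1 ⟨(s ^ k) w0, h2⟩]
            exact SameCycle.refl _ _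
          · exact (R3 _ h2 h1).symm.trans ih
    intro x
    obtain ⟨k, _, hk⟩ := (hs w0 x).exists_pow_eq'
    have := hind k
    rw [hk] at this
    exact this
  have R5 : ∀ l b, SameCycle π (vtx l b) (vtx l false) := by
    intro l b
    rcases R4 (vtx l b) with h | h
    · exact absurd h (hvW l b)
    · rw [hlv] at h
      exact h
  have R6 : ∀ l, SameCycle π (σ l) (vtx l false) := fun l => (R1 l).trans (R5 l _)
  have R7 : ∀ l, SameCycle π (σ l) (τ l) := fun l =>
    (R6 l).trans ((R5 l _).symm.trans (R2 l))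
  have R8 : ∀ (k : ℕ) (l : {w // w ∈ W}), SameCycle π (σ l) (σ (((σ⁻¹ * τ) ^ k) l)) := by
    intro k
    induction k with
    | zero => intro l; exact SameCycle.refl _ _
    | succ k ih =>
      intro l
      refine (ih l).trans ?_
      have h1 : σ (((σ⁻¹ * τ) ^ (k + 1)) l) = τ (((σ⁻¹ * τ) ^ k) l) := by
        rw [pow_succ', mul_apply, mul_apply]
        exact σ.apply_symm_apply _
      rw [h1]
      exact R7 _
  have R9 : ∀ l l', SameCycle π (σ l) (σ l') := by
    intro l l'
    obtain ⟨k, _, hk⟩ := (hcyc l l').exists_pow_eq'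
    have := R8 k l
    rw [hk] at this
    exact this
  have R10 : ∀ x, SameCycle π x (σ ⟨w0, hw0⟩) := by
    intro x
    by_cases hx : x ∈ W
    · have := R9 (σ.symm ⟨x, hx⟩) ⟨w0, hw0⟩
      rw [Equiv.apply_symm_apply] at this
      exact this
    · rcases R4 x with h | h
      · exact absurd h hx
      · exact (h.trans (R6 _).symm).trans (R9 _ _)
  refine ⟨π, fun x y => (R10 x).trans (R10 y).symm, ?_, ?_, ?_, ?_⟩
  · intro x
    by_cases hx : x ∈ W
    · obtain ⟨l, hl⟩ : ∃ l, σ l = ⟨x, hx⟩ := ⟨σ.symm ⟨x, hx⟩, Equiv.apply_symm_apply _ _⟩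
      have hxl : x = σ l := by rw [hl]
      rw [hπ, hxl, g1]
      rcases hσ l with h | h
      · cases ho : o l
        · left
          rw [ho, if_neg (by simp)] at h
          rw [h]
          rfl
        · right; left
          rw [ho, if_pos rfl] at h
          rw [h]
          exact Equiv.apply_symm_apply _ _
      · right; right
        have h2 := halt l (o l)
        rw [← h] at h2
        exact ⟨hmk _ _ h2, Or.inl ⟨(σ l).2, hvW _ _⟩⟩
    · cases ho : o (lk x)
      · rcases hcase x hx with ⟨l, hl⟩ | h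
        · have hlx : lk x = l := by rw [hl, hlv]
          rw [hlx] at ho
          have h1 := g2 l
          rw [ho] at h1
          change g (vtx l true) = τ l at h1
          rw [hπ, hl, h1]
          rcases hτ l with h2 | h2
          · left
            rw [ho, if_neg (by simp)] at h2
            rw [h2]
            exact (Equiv.apply_symm_apply s (nx l : V)).symm
          · right; right
            have h3 := halt l (!o l)
            rw [← h2, ho] at h3
            exact ⟨h3, Or.inr ⟨hvW _ _, (τ l).2⟩⟩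
        · left
          rw [hπ, g3 x hx h ho]
      · rcases hcase' x hx with ⟨l, hl⟩ | h
        · have hlx : lk x = l := by rw [hl, hlv]
          rw [hlx] at ho
          have h1 := g2 l
          rw [ho] at h1
          change g (vtx l false) = τ l at h1
          rw [hπ, hl, h1]
          rcases hτ l with h2 | h2
          · right; left
            rw [ho, if_pos rfl] at h2
            rw [h2]
            rfl
          · right; right
            have h3 := halt l (!o l)
            rw [← h2, ho] at h3
            exact ⟨h3, Or.inr ⟨hvW _ _, (τ l).2⟩⟩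
        · right; left
          have h2 : s (s.symm x) ∉ W := by rw [Equiv.apply_symm_apply]; exact hx
          have h3 : lk (s.symm x) = lk x := by
            have := lk2 (s.symm x) h2
            rw [Equiv.apply_symm_apply] at this
            exact this.symm
          have h4 := g4 (s.symm x) h h2 (by rw [h3]; exact ho)
          rw [Equiv.apply_symm_apply] at h4
          rw [hπ, h4, Equiv.apply_symm_apply]
  · intro x hx hsx
    cases ho : o (lk x)
    · exact Or.inl (g3 x hx hsx ho)
    · exact Or.inr (g4 x hx hsx ho)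
  · intro w hw
    obtain ⟨l, hl⟩ : ∃ l, σ l = ⟨w, hw⟩ := ⟨σ.symm ⟨w, hw⟩, Equiv.apply_symm_apply _ _⟩
    have hwl : w = σ l := by rw [hl]
    rw [hπ, hwl, g1]
    exact hvW _ _
  · -- the gain
    let m : V → V := fun x => if o (lk x) then s x else x
    have hin : ∀ x, mk x (s x) → x ∉ W ∧ s x ∉ W := by
      intro x hx
      constructor
      · intro h
        exact (hcross x h).1 (hmk _ _ hx)
      · intro h
        apply (hcross (s x) h).2
        rw [Equiv.symm_apply_apply]
        exact hx
    have hm1 : ∀ x, mk x (s x) → lk (m x) = lk x ∧ m x ∉ W ∧ π (m x) ∉ W ∧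
        mk (m x) (π (m x)) := by
      intro x hx
      obtain ⟨h1, h2⟩ := hin x hx
      cases ho : o (lk x)
      · have hmx : m x = x := by
          change (if o (lk x) then s x else x) = x
          rw [ho, if_neg (by simp)]
        rw [hmx, hπ, g3 x h1 h2 ho]
        exact ⟨rfl, h1, h2, hx⟩
      · have hmx : m x = s x := by
          change (if o (lk x) then s x else x) = s x
          rw [ho, if_pos rfl]
        rw [hmx, hπ, g4 x h1 h2 ho]
        exact ⟨lk2 x h2, h2, h1, hmk _ _ hx⟩
    have hminj : Set.InjOn m {x | mk x (s x)} := by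
      intro x hx y hy hxy
      have h1 := (hm1 x hx).1
      have h2 := (hm1 y hy).1
      rw [hxy, h2] at h1
      change (if o (lk x) then s x else x) = (if o (lk y) then s y else y) at hxy
      rw [h1] at hxy
      cases ho : o (lk x)
      · rw [ho] at hxy; simpa using hxy
      · rw [ho] at hxy; simpa using hxy
    have hmem : ∃ z, mk z (π z) ∧ (z ∈ W ∨ π z ∈ W) := by
      rcases hmove with h | h
      · refine ⟨σ lm, ?_, Or.inl (σ lm).2⟩
        have h2 := (hσ lm).resolve_left h
        have h3 := halt lm (o lm)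
        rw [← h2] at h3
        rw [hπ, g1]
        exact hmk _ _ h3
      · refine ⟨vtx lm (!o lm), ?_, Or.inr ?_⟩
        · have h2 := (hτ lm).resolve_left h
          have h3 := halt lm (!o lm)
          rw [← h2] at h3
          rw [hπ, g2]
          exact h3
        · rw [hπ, g2]
          exact (τ lm).2
    obtain ⟨z, hz1, hz2⟩ := hmem
    have himg : (Finset.univ.filter (fun x => mk x (s x))).image m ⊂
        Finset.univ.filter (fun x => mk x (π x)) := by
      rw [Finset.ssubset_iff_of_subset]
      · refine ⟨z, Finset.mem_filter.2 ⟨Finset.mem_univ _, hz1⟩, ?_⟩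
        intro hz
        obtain ⟨x, hx, rfl⟩ := Finset.mem_image.1 hz
        have h1 := hm1 x (Finset.mem_filter.1 hx).2
        rcases hz2 with h | h
        · exact h1.2.1 h
        · exact h1.2.2.1 h
      · intro y hy
        obtain ⟨x, hx, rfl⟩ := Finset.mem_image.1 hy
        exact Finset.mem_filter.2 ⟨Finset.mem_univ _, (hm1 x (Finset.mem_filter.1 hx).2).2.2.2⟩
    have h1 := Finset.card_lt_card himg
    rw [Finset.card_image_of_injOn] at h1
    · exact h1
    · intro x hx y hy hxy
      exact hminj (Finset.mem_filter.1 (by exact_mod_cast hx)).2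
        (Finset.mem_filter.1 (by exact_mod_cast hy)).2 hxy

end Pool.Agent.H10.SF2
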