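import Mathlib
import Pool.Agent.H10.EP.Cyc
import Pool.Agent.H10.SF2.I

set_option linter.unusedSectionVars false

namespace Pool.Agent.H10.SF2

open Equiv Equiv.Perm

/-- One cycle on at least three points has no fixed point. -/
theorem J_ne {V : Type} [Fintype V] [DecidableEq V] (s : Perm V) (hs : ∀ x y, SameCycle s x y)
    (hV : 3 ≤ Fintype.card V) (x : V) : s x ≠ x := by
  intro h
  have hall : ∀ y, y = x := by
    intro y
    obtain ⟨i, hi⟩ := hs x y
    rw [← hi, Perm.zpow_apply_eq_self_of_apply_eq_self h]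
  have : Fintype.card V ≤ 1 := Fintype.card_le_one_iff.2 (fun a b => (hall a).trans (hall b).symm)
  omega

/-- One cycle on at least three points has no two-cycle. -/
theorem J_ne2 {V : Type} [Fintype V] [DecidableEq V] (s : Perm V) (hs : ∀ x y, SameCycle s x y)
    (hV : 3 ≤ Fintype.card V) (x : V) : s (s x) ≠ x := by
  intro h
  have h2 : (s ^ 2) x = x := by rw [pow_two, mul_apply]; exact h
  have hall : ∀ y, y = x ∨ y = s x := by
    intro y
    obtain ⟨i, hi⟩ := hs x y
    rcases Int.even_or_odd i with ⟨k, hk⟩ | ⟨k, hk⟩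
    · left
      rw [← hi, hk, ← two_mul, zpow_mul]
      exact Perm.zpow_apply_eq_self_of_apply_eq_self (by exact_mod_cast h2) k
    · right
      rw [← hi, hk, add_comm, zpow_add, zpow_one, mul_apply, zpow_mul]
      rw [Perm.zpow_apply_eq_self_of_apply_eq_self (by exact_mod_cast h2) k]
  have hsub : (Finset.univ : Finset V) ⊆ {x, s x} := by
    intro y _
    rcases hall y with h | h <;> simp [h]
  have := Finset.card_le_card hsub
  have h3 := Finset.card_le_two (a := x) (b := s x)
  rw [Finset.card_univ] at this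
  omega

/-- Exchanging the successors of two points which are far enough apart gives two cycles. -/
theorem J_exchange {V : Type} [Fintype V] [DecidableEq V]
    (s : Perm V) (hs : ∀ x y, SameCycle s x y) (hV : 3 ≤ Fintype.card V)
    (x y : V) (h1 : y ≠ x) (h2 : y ≠ s x) (h3 : y ≠ s (s x)) (h4 : x ≠ s y) (h5 : x ≠ s (s y)) :
    ∃ φ : Perm V, Pool.Agent.H47.TCF.nc φ = 2 ∧ (∀ k, φ (φ k) ≠ k) ∧
      (∀ k, φ k = s k ∨ (k = x ∧ φ k = s y) ∨ (k = y ∧ φ k = s x)) := by
  have f1 := J_ne s hs hV
  have f2 := J_ne2 s hs hV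
  let φ : Perm V := swap (s x) (s y) * s
  have ex : φ x = s y := by
    change swap (s x) (s y) (s x) = s y
    exact swap_apply_left _ _
  have ey : φ y = s x := by
    change swap (s x) (s y) (s y) = s x
    exact swap_apply_right _ _
  have eo : ∀ k, k ≠ x → k ≠ y → φ k = s k := by
    intro k hk1 hk2
    change swap (s x) (s y) (s k) = s k
    exact swap_apply_of_ne_of_ne (fun h => hk1 (s.injective h)) (fun h => hk2 (s.injective h))
  refine ⟨φ, ?_, ?_, ?_⟩
  · have : Nonempty V := ⟨x⟩
    change Pool.Agent.H47.TCF.nc (swap (s x) (s y) * s) = 2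
    rw [Pool.Agent.H47.TCF.nc_split (fun h => h1 (s.injective h).symm) (hs _ _),
      Pool.Agent.H47.TCF.nc_eq_one hs]
  · intro k hk
    by_cases hkx : k = x
    · subst hkx
      rw [ex, eo (s y) h4.symm (f1 y)] at hk
      exact h5 hk.symm
    · by_cases hky : k = y
      · subst hky
        rw [ey, eo (s x) (f1 x) h2.symm] at hk
        exact h3 hk.symm
      · rw [eo k hkx hky] at hk
        by_cases h6 : s k = x
        · rw [h6, ex] at hk
          exact h5 (by rw [hk, h6])
        · by_cases h7 : s k = y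
          · rw [h7, ey] at hk
            exact h3 (by rw [hk, h7])
          · rw [eo _ h6 h7] at hk
            exact f2 k hk
  · intro k
    by_cases hkx : k = x
    · exact Or.inr (Or.inl ⟨hkx, by rw [hkx]; exact ex⟩)
    · by_cases hky : k = y
      · exact Or.inr (Or.inr ⟨hky, by rw [hky]; exact ey⟩)
      · exact Or.inl (eo k hkx hky)

/-- The exchange gives a 2-factor with exactly two cycles. -/
theorem J_factor {n : ℕ} [NeZero n] (G : SimpleGraph (Fin n)) (s : Perm (Fin n))
    (hs : ∀ x y, SameCycle s x y) (hV : 3 ≤ Fintype.card (Fin n))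
    (hadj : ∀ x, G.Adj x (s x)) (x y : Fin n)
    (h1 : y ≠ x) (h2 : y ≠ s x) (h3 : y ≠ s (s x)) (h4 : x ≠ s y) (h5 : x ≠ s (s y))
    (a1 : G.Adj x (s y)) (a2 : G.Adj y (s x)) :
    ∃ F : SimpleGraph (Fin n), F ≤ G ∧ (∀ x, (F.neighborSet x).ncard = 2) ∧
      Nat.card F.ConnectedComponent = 2 := by
  obtain ⟨φ, hφ, hφ2, hφs⟩ := J_exchange s hs hV x y h1 h2 h3 h4 h5
  obtain ⟨F, hF, hF2, hFc⟩ := Pool.Agent.H10.EP.exists_twoFactor' G φ (Equiv.refl (Fin n))
    (fun k => by
      change G.Adj k (φ k)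
      rcases hφs k with h | ⟨h, h'⟩ | ⟨h, h'⟩
      · rw [h]; exact hadj k
      · rw [h', h]; exact a1
      · rw [h', h]; exact a2) hφ2
  exact ⟨F, hF, hF2, hFc.trans hφ⟩

/-- CORE. Hubs in classes with at least three hubs each, any two hubs at distance at least three on
a Hamiltonian cycle, every vertex outside complete to a class. -/
theorem two_of_triples {n : ℕ} [NeZero n] (G : SimpleGraph (Fin n)) (s0 : Perm (Fin n))
    (hs0 : ∀ x y, SameCycle s0 x y) (hadj0 : ∀ x, G.Adj x (s0 x))
    (W : Finset (Fin n)) (hne : W.Nonempty) (t : Fin n → ℕ)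
    (hsp : ∀ w ∈ W, s0 w ∉ W ∧ s0 (s0 w) ∉ W)
    (h3 : ∀ w ∈ W, 3 ≤ (W.filter (fun w' => t w' = t w)).card)
    (hcov : ∀ x, ∃ w ∈ W, ∀ w' ∈ W, t w' = t w → G.Adj x w' ∨ x = w') :
    ∃ F : SimpleGraph (Fin n), F ≤ G ∧ (∀ x, (F.neighborSet x).ncard = 2) ∧
      Nat.card F.ConnectedComponent = 2 := by
  classical
  have hV : 3 ≤ Fintype.card (Fin n) := by
    obtain ⟨w, hw⟩ := hne
    exact (h3 w hw).trans (Finset.card_le_univ _)
  choose hb hbW hbadj using hcov
  let mk : Fin n → Fin n → Prop := fun x y =>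
    (x ∉ W ∧ y ∈ W ∧ t y = t (hb x)) ∨ (y ∉ W ∧ x ∈ W ∧ t x = t (hb y))
  have hmk : ∀ x y, mk x y → mk y x := by
    intro x y h
    rcases h with h | h
    · exact Or.inr h
    · exact Or.inl h
  have hmkG : ∀ x y, mk x y → G.Adj x y := by
    intro x y h
    rcases h with ⟨h1, h2, h4⟩ | ⟨h1, h2, h4⟩
    · rcases hbadj x y h2 h4 with h | h
      · exact h
      · exact absurd (h ▸ h2) h1
    · rcases hbadj y x h2 h4 with h | h
      · exact h.symm
      · exact absurd (h ▸ h2) h1
  let 𝒮 : Finset (Perm (Fin n)) := Finset.univ.filter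
    (fun s => (∀ x y, SameCycle s x y) ∧ (∀ x, G.Adj x (s x)) ∧
      (∀ x, x ∉ W → s0 x ∉ W → s x = s0 x ∨ s (s0 x) = x) ∧ ∀ w ∈ W, s w ∉ W)
  have hs0𝒮 : s0 ∈ 𝒮 := Finset.mem_filter.2 ⟨Finset.mem_univ _, hs0, hadj0,
    fun x _ _ => Or.inl rfl, fun w hw => (hsp w hw).1⟩
  obtain ⟨s, hs𝒮, hmax⟩ := Finset.exists_max_image 𝒮
    (fun s => (Finset.univ.filter (fun x => mk x (s x))).card) ⟨s0, hs0𝒮⟩
  obtain ⟨hs, hadj, hlk, hW⟩ := (Finset.mem_filter.1 hs𝒮).2
  have hWs : ∀ w ∈ W, s.symm w ∉ W := by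
    intro w hw h
    have := hW _ h
    rw [Equiv.apply_symm_apply] at this
    exact this hw
  -- links have at least two vertices
  have hlink : ∀ w ∈ W, s (s w) ∉ W := by
    intro w hw h
    have hz : s w ∉ W := hW w hw
    by_cases h1 : s0 (s w) ∈ W
    · have h2 : s0.symm (s w) ∉ W := by
        intro h2
        have h4 := (hsp _ h2).2
        rw [Equiv.apply_symm_apply] at h4
        exact h4 h1
      rcases hlk (s0.symm (s w)) h2 (by rw [Equiv.apply_symm_apply]; exact hz) with h4 | h4
      · rw [Equiv.apply_symm_apply] at h4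
        rw [s.injective h4] at h2
        exact h2 hw
      · rw [Equiv.apply_symm_apply] at h4
        rw [← h4] at h2
        exact h2 h
    · rcases hlk (s w) hz h1 with h4 | h4
      · rw [h4] at h
        exact h1 h
      · exact h1 ((s.injective h4).symm ▸ hw)
  by_contra hno
  -- at most one forward mark in each class
  have hfw : ∀ w ∈ W, ∀ w' ∈ W, t w' = t w → mk (s.symm w) w → mk (s.symm w') w' → w' = w := by
    intro w hw w' hw' htt hm hm'
    by_contra hne'
    apply hno
    have hx : s (s.symm w) = w := Equiv.apply_symm_apply _ _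
    have hx' : s (s.symm w') = w' := Equiv.apply_symm_apply _ _
    have hc : t w = t (hb (s.symm w)) := by
      rcases hm with h | h
      · exact h.2.2
      · exact absurd hw h.1
    have hc' : t w' = t (hb (s.symm w')) := by
      rcases hm' with h | h
      · exact h.2.2
      · exact absurd hw' h.1
    refine J_factor G s hs hV hadj (s.symm w) (s.symm w') ?_ ?_ ?_ ?_ ?_ ?_ ?_
    · intro h; exact hne' (s.symm.injective h)
    · rw [hx]; intro h; exact hWs w' hw' (h ▸ hw)
    · rw [hx]; intro h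
      have := hlink w hw
      rw [← h, hx'] at this
      exact this hw'
    · rw [hx']; intro h; exact hWs w hw (h ▸ hw')
    · rw [hx']; intro h
      have := hlink w' hw'
      rw [← h, hx] at this
      exact this hw
    · rw [hx']
      apply hmkG
      exact Or.inl ⟨hWs w hw, hw', htt.trans hc⟩
    · rw [hx]
      apply hmkG
      exact Or.inl ⟨hWs w' hw', hw, htt.symm.trans hc'⟩
  -- at most one backward mark in each class
  have hbw : ∀ w ∈ W, ∀ w' ∈ W, t w' = t w → mk (s w) w → mk (s w') w' → w' = w := by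
    intro w hw w' hw' htt hm hm'
    by_contra hne'
    apply hno
    have hc : t w = t (hb (s w)) := by
      rcases hm with h | h
      · exact h.2.2
      · exact absurd hw h.1
    have hc' : t w' = t (hb (s w')) := by
      rcases hm' with h | h
      · exact h.2.2
      · exact absurd hw' h.1
    refine J_factor G s hs hV hadj w w' hne' ?_ ?_ ?_ ?_ ?_ ?_
    · intro h; exact hW w hw (h ▸ hw')
    · intro h; exact hlink w hw (h ▸ hw')
    · intro h; exact hW w' hw' (h ▸ hw)
    · intro h; exact hlink w' hw' (h ▸ hw)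
    · apply hmkG
      exact Or.inr ⟨hW w' hw', hw, htt.symm.trans hc'⟩
    · apply hmkG
      exact Or.inr ⟨hW w hw, hw', htt.trans hc⟩
  -- a free hub in each class
  have hfree : ∀ w ∈ W, ∃ u ∈ W, t u = t w ∧ ¬ mk (s u) u ∧ ¬ mk (s.symm u) u := by
    intro w hw
    by_contra hcon
    push Not at hcon
    have hsub : W.filter (fun w' => t w' = t w) ⊆
        (W.filter (fun w' => t w' = t w ∧ mk (s w') w')) ∪
        (W.filter (fun w' => t w' = t w ∧ mk (s.symm w') w')) := by
      intro u hu
      obtain ⟨hu1, hu2⟩ := Finset.mem_filter.1 hu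
      rw [Finset.mem_union]
      by_cases h : mk (s u) u
      · exact Or.inl (Finset.mem_filter.2 ⟨hu1, hu2, h⟩)
      · exact Or.inr (Finset.mem_filter.2 ⟨hu1, hu2, hcon u hu1 hu2 h⟩)
    have c1 : (W.filter (fun w' => t w' = t w ∧ mk (s w') w')).card ≤ 1 := by
      rw [Finset.card_le_one]
      intro a ha b hb'
      obtain ⟨ha1, ha2, ha3⟩ := Finset.mem_filter.1 ha
      obtain ⟨hb1, hb2, hb3⟩ := Finset.mem_filter.1 hb'
      exact hbw b hb1 a ha1 (ha2.trans hb2.symm) hb3 ha3
    have c2 : (W.filter (fun w' => t w' = t w ∧ mk (s.symm w') w')).card ≤ 1 := by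
      rw [Finset.card_le_one]
      intro a ha b hb'
      obtain ⟨ha1, ha2, ha3⟩ := Finset.mem_filter.1 ha
      obtain ⟨hb1, hb2, hb3⟩ := Finset.mem_filter.1 hb'
      exact hfw b hb1 a ha1 (ha2.trans hb2.symm) hb3 ha3
    have c3 := Finset.card_le_card hsub
    have c4 := Finset.card_union_le (W.filter (fun w' => t w' = t w ∧ mk (s w') w'))
      (W.filter (fun w' => t w' = t w ∧ mk (s.symm w') w'))
    have c5 := h3 w hw
    omega
  -- the free hubs
  let W' : Finset (Fin n) := W.filter (fun u => ¬ mk (s u) u ∧ ¬ mk (s.symm u) u)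
  have hW'W : ∀ u, u ∈ W' → u ∈ W := fun u hu => (Finset.mem_filter.1 hu).1
  have hhub : ∀ x, x ∉ W → ∃ u ∈ W', mk x u := by
    intro x hx
    obtain ⟨u, hu, htu, hf⟩ := hfree (hb x) (hbW x)
    exact ⟨u, Finset.mem_filter.2 ⟨hu, hf⟩, Or.inl ⟨hx, hu, htu⟩⟩
  have hne' : W'.Nonempty := by
    obtain ⟨w, hw⟩ := hne
    obtain ⟨u, hu, _⟩ := hhub (s w) (hW w hw)
    exact ⟨u, hu⟩
  obtain ⟨π, hπ, hπs, hπl, _, hlt⟩ := improve mk hmk s hs W' hne'
    (fun w hw h => hW w (hW'W w hw) (hW'W _ h))
    (fun w hw => (Finset.mem_filter.1 hw).2)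
    (fun w hw => ⟨hhub _ (hW w (hW'W w hw)), hhub _ (hWs w (hW'W w hw))⟩)
  have hπ𝒮 : π ∈ 𝒮 := by
    refine Finset.mem_filter.2 ⟨Finset.mem_univ _, hπ, ?_, ?_, ?_⟩
    · intro x
      rcases hπs x with h | h | h
      · rw [h]; exact hadj x
      · have := hadj (π x)
        rw [h] at this
        exact this.symm
      · exact hmkG _ _ h.1
    · intro x hx hsx
      rcases hlk x hx hsx with h | h
      · have := hπl x (fun h' => hx (hW'W _ h')) (by rw [h]; exact fun h' => hsx (hW'W _ h'))
        rw [h] at this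
        exact this
      · have := hπl (s0 x) (fun h' => hsx (hW'W _ h'))
          (by rw [h]; exact fun h' => hx (hW'W _ h'))
        rw [h] at this
        exact this.symm
    · intro w hw
      rcases hπs w with h | h | h
      · rw [h]; exact hW w hw
      · intro h'
        have := hW (π w) h'
        rw [h] at this
        exact this hw
      · rcases h.1 with h' | h'
        · exact absurd hw h'.1
        · exact h'.1
  have := hmax π hπ𝒮
  omega

end Pool.Agent.H10.SF2
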