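import Mathlib

/-! Selection of separated triples by a potential (method of conditional expectations). -/

namespace Pool.Agent.H10.SF2

open Finset

section Core

variable {V : Type} [Fintype V] [DecidableEq V]

/-- The vertices near the set `W`. -/
def nearSet (near : V → Finset V) (W : Finset V) : Finset V := W.biUnion near

/-- `x` is complete to a triple of `(W, t)`. -/
def Cov (N : V → Finset V) (W : Finset V) (t : V → ℕ) (x : V) : Prop :=
  ∃ w ∈ W, ∀ w' ∈ W, t w' = t w → w' ∈ N x

/-- The triple `a, b, c` can be added. -/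
def Acc (near : V → Finset V) (W : Finset V) (a b c : V) : Prop :=
  a ∉ nearSet near W ∧ (b ∉ nearSet near W ∧ b ∉ near a) ∧
    (c ∉ nearSet near W ∧ c ∉ near a ∧ c ∉ near b)

/-- The conditions on a state with labels below `j`. -/
def Good (near : V → Finset V) (W : Finset V) (t : V → ℕ) (j : ℕ) : Prop :=
  (∀ w ∈ W, t w < j) ∧ (∀ w ∈ W, ∀ w' ∈ W, w' ∈ near w → w' = w) ∧
    ∀ w ∈ W, 3 ≤ (W.filter (fun w' => t w' = t w)).card

/-- The new labels. -/
def newT (t : V → ℕ) (j : ℕ) (a b c : V) : V → ℕ :=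
  fun v => if v = a ∨ v = b ∨ v = c then j else t v

omit [Fintype V] in
theorem good_step (near : V → Finset V) (hself : ∀ a, a ∈ near a)
    (hsymm : ∀ a b, a ∈ near b → b ∈ near a) (W : Finset V) (t : V → ℕ) (j : ℕ)
    (h : Good near W t j) (a b c : V) (hacc : Acc near W a b c) :
    Good near (W ∪ {a, b, c}) (newT t j a b c) (j + 1) := by
  obtain ⟨hlt, hsp, h3⟩ := h
  obtain ⟨ha, ⟨hb, hba⟩, hc, hca, hcb⟩ := hacc
  have hW : ∀ v ∈ W, ∀ u, u ∉ nearSet near W → u ∉ near v := by
    intro v hv u hu hn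
    exact hu (Finset.mem_biUnion.mpr ⟨v, hv, hn⟩)
  have haW : a ∉ W := fun h => hW a h a ha (hself a)
  have hbW : b ∉ W := fun h => hW b h b hb (hself b)
  have hcW : c ∉ W := fun h => hW c h c hc (hself c)
  have hab : b ≠ a := fun h => hba (h ▸ hself a)
  have hac : c ≠ a := fun h => hca (h ▸ hself a)
  have hbc : c ≠ b := fun h => hcb (h ▸ hself b)
  have hnew : ∀ v ∈ W, newT t j a b c v = t v := by
    intro v hv
    have h1 : v ≠ a := fun h => haW (h ▸ hv)
    have h2 : v ≠ b := fun h => hbW (h ▸ hv)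
    have h3 : v ≠ c := fun h => hcW (h ▸ hv)
    simp [newT, h1, h2, h3]
  have hnew' : ∀ v ∈ ({a, b, c} : Finset V), newT t j a b c v = j := by
    intro v hv
    simp only [Finset.mem_insert, Finset.mem_singleton] at hv
    simp [newT, hv]
  refine ⟨?_, ?_, ?_⟩
  · intro w hw
    rcases Finset.mem_union.mp hw with hw | hw
    · rw [hnew w hw]; exact Nat.lt_succ_of_lt (hlt w hw)
    · rw [hnew' w hw]; exact Nat.lt_succ_self j
  · intro w hw w' hw' hn
    rcases Finset.mem_union.mp hw with hw1 | hw1 <;>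
      rcases Finset.mem_union.mp hw' with hw2 | hw2
    · exact hsp w hw1 w' hw2 hn
    · exfalso
      have hnb := hW w hw1
      simp only [Finset.mem_insert, Finset.mem_singleton] at hw2
      rcases hw2 with h | h | h
      · rw [h] at hn; exact hnb _ ha hn
      · rw [h] at hn; exact hnb _ hb hn
      · rw [h] at hn; exact hnb _ hc hn
    · exfalso
      have hnb := hW w' hw2
      have hn' := hsymm _ _ hn
      simp only [Finset.mem_insert, Finset.mem_singleton] at hw1
      rcases hw1 with h | h | h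
      · rw [h] at hn'; exact hnb _ ha hn'
      · rw [h] at hn'; exact hnb _ hb hn'
      · rw [h] at hn'; exact hnb _ hc hn'
    · simp only [Finset.mem_insert, Finset.mem_singleton] at hw1 hw2
      rcases hw1 with rfl | rfl | rfl <;> rcases hw2 with rfl | rfl | rfl
      · rfl
      · exact absurd hn hba
      · exact absurd hn hca
      · exact absurd (hsymm _ _ hn) hba
      · rfl
      · exact absurd hn hcb
      · exact absurd (hsymm _ _ hn) hca
      · exact absurd (hsymm _ _ hn) hcb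
      · rfl
  · intro w hw
    rcases Finset.mem_union.mp hw with hw | hw
    · refine (h3 w hw).trans (Finset.card_le_card ?_)
      intro v hv
      obtain ⟨hv1, hv2⟩ := Finset.mem_filter.mp hv
      refine Finset.mem_filter.mpr ⟨Finset.mem_union_left _ hv1, ?_⟩
      rw [hnew v hv1, hnew w hw, hv2]
    · have hcard : ({a, b, c} : Finset V).card = 3 := by
        rw [Finset.card_eq_three]
        exact ⟨a, b, c, hab.symm, hac.symm, hbc.symm, rfl⟩
      rw [← hcard]
      refine Finset.card_le_card ?_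
      intro v hv
      refine Finset.mem_filter.mpr ⟨Finset.mem_union_right _ hv, ?_⟩
      rw [hnew' v hv, hnew' w hw]

omit [Fintype V] in
theorem cov_old (near : V → Finset V) (hself : ∀ a, a ∈ near a) (N : V → Finset V)
    (W : Finset V) (t : V → ℕ) (j : ℕ)
    (h : Good near W t j) (a b c : V) (hacc : Acc near W a b c) (x : V) (hx : Cov N W t x) :
    Cov N (W ∪ {a, b, c}) (newT t j a b c) x := by
  obtain ⟨hlt, hsp, h3⟩ := h
  obtain ⟨ha, ⟨hb, hba⟩, hc, hca, hcb⟩ := hacc
  have hW : ∀ v ∈ W, ∀ u, u ∉ nearSet near W → u ∉ near v := by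
    intro v hv u hu hn
    exact hu (Finset.mem_biUnion.mpr ⟨v, hv, hn⟩)
  have haW : a ∉ W := fun h => hW a h a ha (hself a)
  have hbW : b ∉ W := fun h => hW b h b hb (hself b)
  have hcW : c ∉ W := fun h => hW c h c hc (hself c)
  have hnew : ∀ v ∈ W, newT t j a b c v = t v := by
    intro v hv
    have h1 : v ≠ a := fun h => haW (h ▸ hv)
    have h2 : v ≠ b := fun h => hbW (h ▸ hv)
    have h3 : v ≠ c := fun h => hcW (h ▸ hv)
    simp [newT, h1, h2, h3]
  have hnew' : ∀ v ∈ ({a, b, c} : Finset V), newT t j a b c v = j := by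
    intro v hv
    simp only [Finset.mem_insert, Finset.mem_singleton] at hv
    simp [newT, hv]
  obtain ⟨w, hw, hall⟩ := hx
  refine ⟨w, Finset.mem_union_left _ hw, ?_⟩
  intro w' hw' heq
  rcases Finset.mem_union.mp hw' with hw' | hw'
  · rw [hnew w' hw', hnew w hw] at heq
    exact hall w' hw' heq
  · rw [hnew' w' hw', hnew w hw] at heq
    exact absurd (hlt w hw) (by omega)

omit [Fintype V] in
theorem cov_new (near : V → Finset V) (hself : ∀ a, a ∈ near a) (N : V → Finset V)
    (W : Finset V) (t : V → ℕ) (j : ℕ)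
    (h : Good near W t j) (a b c : V) (hacc : Acc near W a b c) (x : V)
    (hxa : a ∈ N x) (hxb : b ∈ N x) (hxc : c ∈ N x) :
    Cov N (W ∪ {a, b, c}) (newT t j a b c) x := by
  obtain ⟨hlt, hsp, h3⟩ := h
  obtain ⟨ha, ⟨hb, hba⟩, hc, hca, hcb⟩ := hacc
  have hW : ∀ v ∈ W, ∀ u, u ∉ nearSet near W → u ∉ near v := by
    intro v hv u hu hn
    exact hu (Finset.mem_biUnion.mpr ⟨v, hv, hn⟩)
  have haW : a ∉ W := fun h => hW a h a ha (hself a)
  have hbW : b ∉ W := fun h => hW b h b hb (hself b)
  have hcW : c ∉ W := fun h => hW c h c hc (hself c)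
  have hnew : ∀ v ∈ W, newT t j a b c v = t v := by
    intro v hv
    have h1 : v ≠ a := fun h => haW (h ▸ hv)
    have h2 : v ≠ b := fun h => hbW (h ▸ hv)
    have h3 : v ≠ c := fun h => hcW (h ▸ hv)
    simp [newT, h1, h2, h3]
  have hta : newT t j a b c a = j := by simp [newT]
  refine ⟨a, Finset.mem_union_right _ (by simp), ?_⟩
  intro w' hw' heq
  rcases Finset.mem_union.mp hw' with hw' | hw'
  · rw [hnew w' hw', hta] at heq
    exact absurd (hlt w' hw') (by omega)
  · simp only [Finset.mem_insert, Finset.mem_singleton] at hw'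
    rcases hw' with rfl | rfl | rfl
    · exact hxa
    · exact hxb
    · exact hxc

/-- number of blocked neighbours -/
def cc (near : V → Finset V) (N : V → Finset V) (W : Finset V) (x : V) : ℕ :=
  (N x ∩ nearSet near W).card

omit [Fintype V] in
theorem cc_step (near : V → Finset V) (N : V → Finset V) (W : Finset V) (a b c x : V) :
    cc near N (W ∪ {a, b, c}) x ≤
      cc near N W x + (N x ∩ near a).card + (N x ∩ near b).card + (N x ∩ near c).card := by
  have h : N x ∩ nearSet near (W ∪ {a, b, c}) ⊆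
      (N x ∩ nearSet near W) ∪ (N x ∩ near a) ∪ (N x ∩ near b) ∪ (N x ∩ near c) := by
    intro v hv
    simp only [nearSet, Finset.mem_inter, Finset.mem_biUnion, Finset.mem_union,
      Finset.mem_insert, Finset.mem_singleton] at hv ⊢
    obtain ⟨hv1, w, hw, hv2⟩ := hv
    rcases hw with hw | rfl | rfl | rfl
    · exact Or.inl (Or.inl (Or.inl ⟨hv1, w, hw, hv2⟩))
    · exact Or.inl (Or.inl (Or.inr ⟨hv1, hv2⟩))
    · exact Or.inl (Or.inr ⟨hv1, hv2⟩)
    · exact Or.inr ⟨hv1, hv2⟩
  calc cc near N (W ∪ {a, b, c}) x ≤ _ := Finset.card_le_card h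
    _ ≤ _ := Finset.card_union_le _ _
    _ ≤ _ := Nat.add_le_add_right (Finset.card_union_le _ _) _
    _ ≤ _ := Nat.add_le_add_right (Nat.add_le_add_right (Finset.card_union_le _ _) _) _

theorem two_pow_le (X : ℕ) (hX : X ≤ 5) : (2 : ℝ) ^ X ≤ 1 + 7 * X := by
  interval_cases X <;> norm_num

/-- The average of `2 ^ |N x ∩ near a|`. -/
theorem sum_pow_le (near : V → Finset V) (hcard : ∀ a, (near a).card ≤ 5)
    (hsymm : ∀ a b, a ∈ near b → b ∈ near a) (S : Finset V) :
    ∑ a : V, (2 : ℝ) ^ (S ∩ near a).card ≤ Fintype.card V + 35 * S.card := by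
  have h1 : ∀ a : V, (2 : ℝ) ^ (S ∩ near a).card ≤ 1 + 7 * ((S ∩ near a).card : ℝ) := fun a =>
    two_pow_le _ ((Finset.card_le_card Finset.inter_subset_right).trans (hcard a))
  have h2 : ∑ a : V, (S ∩ near a).card ≤ 5 * S.card := by
    have h3 : ∀ a : V, (S ∩ near a).card = ∑ y ∈ S, if y ∈ near a then 1 else 0 := by
      intro a
      rw [← Finset.filter_mem_eq_inter, Finset.card_filter]
    calc ∑ a : V, (S ∩ near a).card = ∑ a : V, ∑ y ∈ S, if y ∈ near a then 1 else 0 :=
          Finset.sum_congr rfl (fun a _ => h3 a)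
      _ = ∑ y ∈ S, ∑ a : V, if y ∈ near a then 1 else 0 := Finset.sum_comm
      _ ≤ ∑ y ∈ S, 5 := by
          refine Finset.sum_le_sum ?_
          intro y _
          rw [← Finset.card_filter]
          refine (Finset.card_le_card ?_).trans (hcard y)
          intro a ha
          exact hsymm _ _ (Finset.mem_filter.mp ha).2
      _ = 5 * S.card := by rw [Finset.sum_const, smul_eq_mul, mul_comm]
  calc ∑ a : V, (2 : ℝ) ^ (S ∩ near a).card ≤ ∑ a : V, (1 + 7 * ((S ∩ near a).card : ℝ)) :=
        Finset.sum_le_sum (fun a _ => h1 a)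
    _ = Fintype.card V + 7 * ((∑ a : V, (S ∩ near a).card : ℕ) : ℝ) := by
        rw [Finset.sum_add_distrib, ← Finset.mul_sum]
        push_cast
        simp
    _ ≤ Fintype.card V + 7 * ((5 * S.card : ℕ) : ℝ) := by
        have : ((∑ a : V, (S ∩ near a).card : ℕ) : ℝ) ≤ ((5 * S.card : ℕ) : ℝ) := by
          exact_mod_cast h2
        linarith
    _ = Fintype.card V + 35 * S.card := by push_cast; ring

open Classical in
/-- The number of good triples for `x`. -/
theorem good_triples (near : V → Finset V) (hcard : ∀ a, (near a).card ≤ 5)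
    (N : V → Finset V) (W : Finset V) (d : ℕ) (hd : 60 ≤ d) (x : V) (hN : (N x).card = d)
    (hc : 2 * cc near N W x ≤ d) :
    ((d : ℝ) / 3) ^ 3 ≤ ∑ a : V, ∑ b : V, ∑ c : V,
      (if (Acc near W a b c ∧ a ∈ N x ∧ b ∈ N x ∧ c ∈ N x) then (1 : ℝ) else 0) := by
  set A : Finset V := N x \ nearSet near W with hA
  have hAcard : (d : ℝ) / 2 ≤ A.card := by
    have h1 : A.card + cc near N W x = d := by
      rw [← hN, hA, cc]
      exact Finset.card_sdiff_add_card_inter _ _
    have h2 : (A.card : ℝ) + cc near N W x = d := by exact_mod_cast h1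
    have h3 : (2 : ℝ) * cc near N W x ≤ d := by exact_mod_cast hc
    linarith
  have hd' : (60 : ℝ) ≤ d := by exact_mod_cast hd
  have hsd : ∀ (S : Finset V) (a : V), (S.card : ℝ) - 5 ≤ (S \ near a).card := by
    intro S a
    have h1 : S.card ≤ (S \ near a).card + (near a).card :=
      (Finset.card_le_card_sdiff_add_card)
    have h2 := hcard a
    have h3 : (S.card : ℝ) ≤ (S \ near a).card + 5 := by
      exact_mod_cast h1.trans (Nat.add_le_add_left h2 _)
    linarith
  -- inner sum
  have hin : ∀ a ∈ A, ∀ b ∈ A \ near a, (d : ℝ) / 3 ≤ ∑ c : V,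
      (if (Acc near W a b c ∧ a ∈ N x ∧ b ∈ N x ∧ c ∈ N x) then (1 : ℝ) else 0) := by
    intro a ha b hb
    have h1 : (d : ℝ) / 3 ≤ ((A \ near a) \ near b).card := by
      have := hsd A a
      have := hsd (A \ near a) b
      linarith
    have h2 : ∑ c ∈ (A \ near a) \ near b, (1 : ℝ) ≤ ∑ c : V,
      (if (Acc near W a b c ∧ a ∈ N x ∧ b ∈ N x ∧ c ∈ N x) then (1 : ℝ) else 0) := by
      rw [← Finset.sum_filter]
      refine Finset.sum_le_sum_of_subset_of_nonneg ?_ (fun _ _ _ => zero_le_one)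
      intro c hc'
      simp only [hA, Finset.mem_sdiff] at ha hb hc'
      refine Finset.mem_filter.mpr ⟨Finset.mem_univ _, ?_⟩
      exact ⟨⟨ha.2, ⟨hb.1.2, hb.2⟩, hc'.1.1.2, hc'.1.2, hc'.2⟩, ha.1, hb.1.1, hc'.1.1.1⟩
    rw [Finset.sum_const, nsmul_eq_mul, mul_one] at h2
    linarith
  have hnn : ∀ a b : V, 0 ≤ ∑ c : V,
      (if (Acc near W a b c ∧ a ∈ N x ∧ b ∈ N x ∧ c ∈ N x) then (1 : ℝ) else 0) := by
    intro a b
    refine Finset.sum_nonneg ?_
    intro c _
    split_ifs <;> norm_num
  have hmid : ∀ a ∈ A, ((d : ℝ) / 3) ^ 2 ≤ ∑ b : V, ∑ c : V,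
      (if (Acc near W a b c ∧ a ∈ N x ∧ b ∈ N x ∧ c ∈ N x) then (1 : ℝ) else 0) := by
    intro a ha
    have h1 : (d : ℝ) / 3 ≤ (A \ near a).card := by
      have := hsd A a
      linarith
    calc ((d : ℝ) / 3) ^ 2 = (d : ℝ) / 3 * ((d : ℝ) / 3) := by ring
      _ ≤ (A \ near a).card * ((d : ℝ) / 3) := by
          refine mul_le_mul_of_nonneg_right h1 (by positivity)
      _ = ∑ b ∈ A \ near a, (d : ℝ) / 3 := by rw [Finset.sum_const, nsmul_eq_mul]
      _ ≤ ∑ b ∈ A \ near a, ∑ c : V,
          (if (Acc near W a b c ∧ a ∈ N x ∧ b ∈ N x ∧ c ∈ N x) then (1 : ℝ) else 0) :=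
          Finset.sum_le_sum (fun b hb => hin a ha b hb)
      _ ≤ _ := Finset.sum_le_sum_of_subset_of_nonneg (Finset.subset_univ _)
          (fun b _ _ => hnn a b)
  have hnn2 : ∀ a : V, 0 ≤ ∑ b : V, ∑ c : V,
      (if (Acc near W a b c ∧ a ∈ N x ∧ b ∈ N x ∧ c ∈ N x) then (1 : ℝ) else 0) :=
    fun a => Finset.sum_nonneg (fun b _ => hnn a b)
  have h1 : (d : ℝ) / 3 ≤ A.card := by linarith
  calc ((d : ℝ) / 3) ^ 3 = (d : ℝ) / 3 * ((d : ℝ) / 3) ^ 2 := by ring
    _ ≤ A.card * ((d : ℝ) / 3) ^ 2 := mul_le_mul_of_nonneg_right h1 (by positivity)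
    _ = ∑ a ∈ A, ((d : ℝ) / 3) ^ 2 := by rw [Finset.sum_const, nsmul_eq_mul]
    _ ≤ ∑ a ∈ A, ∑ b : V, ∑ c : V,
          (if (Acc near W a b c ∧ a ∈ N x ∧ b ∈ N x ∧ c ∈ N x) then (1 : ℝ) else 0) :=
        Finset.sum_le_sum (fun a ha => hmid a ha)
    _ ≤ _ := Finset.sum_le_sum_of_subset_of_nonneg (Finset.subset_univ _)
        (fun a _ _ => hnn2 a)

open Classical in
/-- first part of the potential -/
noncomputable def phi1 (near : V → Finset V) (N : V → Finset V) (d : ℕ) (q : ℝ) (r : ℕ)
    (W : Finset V) (t : V → ℕ) (x : V) : ℝ :=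
  if ¬ Cov N W t x ∧ 2 * cc near N W x ≤ d then q ^ r else 0

/-- second part of the potential -/
noncomputable def phi2 (near : V → Finset V) (N : V → Finset V) (d : ℕ) (g : ℝ) (r : ℕ)
    (W : Finset V) (x : V) : ℝ :=
  2 ^ (cc near N W x) / 2 ^ (d / 2) * g ^ r

open Classical in
/-- the state after trying `a, b, c` : the set -/
noncomputable def stW (near : V → Finset V) (W : Finset V) (a b c : V) : Finset V :=
  if Acc near W a b c then W ∪ {a, b, c} else W

open Classical in
/-- the state after trying `a, b, c` : the labels -/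
noncomputable def stT (near : V → Finset V) (W : Finset V) (t : V → ℕ) (j : ℕ) (a b c : V) :
    V → ℕ :=
  if Acc near W a b c then newT t j a b c else t

theorem phi1_step (near : V → Finset V) (hself : ∀ a, a ∈ near a)
    (hcard : ∀ a, (near a).card ≤ 5) (N : V → Finset V) (W : Finset V) (t : V → ℕ) (j : ℕ)
    (h : Good near W t j) (d : ℕ) (hd : 60 ≤ d) (x : V) (hN : (N x).card = d)
    (q : ℝ) (hq0 : 0 ≤ q)
    (hq : (Fintype.card V : ℝ) ^ 3 - ((d : ℝ) / 3) ^ 3 ≤ (Fintype.card V : ℝ) ^ 3 * q) (r : ℕ) :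
    ∑ a : V, ∑ b : V, ∑ c : V,
      phi1 near N d q r (stW near W a b c) (stT near W t j a b c) x ≤
      (Fintype.card V : ℝ) ^ 3 * phi1 near N d q (r + 1) W t x := by
  classical
  have hmono : ∀ a b c : V, cc near N W x ≤ cc near N (stW near W a b c) x := by
    intro a b c
    unfold stW
    split_ifs
    · refine Finset.card_le_card (Finset.inter_subset_inter_left ?_)
      exact Finset.biUnion_subset_biUnion_of_subset_left _ Finset.subset_union_left
    · exact le_refl _
  by_cases hx : ¬ Cov N W t x ∧ 2 * cc near N W x ≤ d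
  · have h1 : ∀ a b c : V, phi1 near N d q r (stW near W a b c) (stT near W t j a b c) x ≤
        q ^ r * (1 - if (Acc near W a b c ∧ a ∈ N x ∧ b ∈ N x ∧ c ∈ N x)
          then (1 : ℝ) else 0) := by
      intro a b c
      by_cases hg : Acc near W a b c ∧ a ∈ N x ∧ b ∈ N x ∧ c ∈ N x
      · have hcov : Cov N (stW near W a b c) (stT near W t j a b c) x := by
          rw [stW, stT, if_pos hg.1, if_pos hg.1]
          exact cov_new near hself N W t j h a b c hg.1 x hg.2.1 hg.2.2.1 hg.2.2.2
        rw [phi1, if_neg (fun hh => hh.1 hcov), if_pos hg]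
        simp
      · rw [if_neg hg, sub_zero, mul_one, phi1]
        split_ifs
        · exact le_refl _
        · positivity
    have h2 : ∑ a : V, ∑ b : V, ∑ c : V,
        phi1 near N d q r (stW near W a b c) (stT near W t j a b c) x ≤
        ∑ a : V, ∑ b : V, ∑ c : V, q ^ r *
          (1 - if (Acc near W a b c ∧ a ∈ N x ∧ b ∈ N x ∧ c ∈ N x) then (1 : ℝ) else 0) :=
      Finset.sum_le_sum (fun a _ => Finset.sum_le_sum (fun b _ =>
        Finset.sum_le_sum (fun c _ => h1 a b c)))
    have h3 : ∑ a : V, ∑ b : V, ∑ c : V, q ^ r *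
          (1 - if (Acc near W a b c ∧ a ∈ N x ∧ b ∈ N x ∧ c ∈ N x) then (1 : ℝ) else 0) =
        q ^ r * ((Fintype.card V : ℝ) ^ 3 - ∑ a : V, ∑ b : V, ∑ c : V,
          (if (Acc near W a b c ∧ a ∈ N x ∧ b ∈ N x ∧ c ∈ N x) then (1 : ℝ) else 0)) := by
      simp only [← Finset.mul_sum, Finset.sum_sub_distrib, Finset.sum_const,
        Finset.card_univ, nsmul_eq_mul, mul_one]
      ring
    have h4 := good_triples near hcard N W d hd x hN hx.2
    rw [h3] at h2
    refine h2.trans ?_
    rw [phi1, if_pos hx, pow_succ]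
    have h5 : (Fintype.card V : ℝ) ^ 3 - ∑ a : V, ∑ b : V, ∑ c : V,
          (if (Acc near W a b c ∧ a ∈ N x ∧ b ∈ N x ∧ c ∈ N x) then (1 : ℝ) else 0) ≤
          (Fintype.card V : ℝ) ^ 3 * q := by
      linarith
    calc q ^ r * _ ≤ q ^ r * ((Fintype.card V : ℝ) ^ 3 * q) :=
          mul_le_mul_of_nonneg_left h5 (by positivity)
      _ = _ := by ring
  · have h1 : ∀ a b c : V,
        phi1 near N d q r (stW near W a b c) (stT near W t j a b c) x = 0 := by
      intro a b c
      rw [phi1, if_neg]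
      intro hh
      apply hx
      refine ⟨fun hcov => hh.1 ?_, ?_⟩
      · unfold stW stT
        split_ifs with hacc
        · exact cov_old near hself N W t j h a b c hacc x hcov
        · exact hcov
      · have := hmono a b c
        have := hh.2
        omega
    rw [phi1, if_neg hx]
    simp [h1]

theorem phi2_step (near : V → Finset V)
    (hcard : ∀ a, (near a).card ≤ 5) (hsymm : ∀ a b, a ∈ near b → b ∈ near a)
    (N : V → Finset V) (W : Finset V)
    (d : ℕ) (x : V) (hN : (N x).card = d) (g : ℝ) (hg0 : 0 ≤ g)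
    (hg : ((Fintype.card V : ℝ) + 35 * d) ^ 3 ≤ (Fintype.card V : ℝ) ^ 3 * g) (r : ℕ) :
    ∑ a : V, ∑ b : V, ∑ c : V, phi2 near N d g r (stW near W a b c) x ≤
      (Fintype.card V : ℝ) ^ 3 * phi2 near N d g (r + 1) W x := by
  classical
  have h1 : ∀ a b c : V, phi2 near N d g r (stW near W a b c) x ≤
      phi2 near N d g r W x * ((2 : ℝ) ^ (N x ∩ near a).card * (2 : ℝ) ^ (N x ∩ near b).card *
        (2 : ℝ) ^ (N x ∩ near c).card) := by
    intro a b c
    have h2 : cc near N (stW near W a b c) x ≤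
        cc near N W x + (N x ∩ near a).card + (N x ∩ near b).card + (N x ∩ near c).card := by
      unfold stW
      split_ifs
      · exact cc_step near N W a b c x
      · omega
    have h3 : (2 : ℝ) ^ (cc near N (stW near W a b c) x) ≤ 2 ^ (cc near N W x) *
        ((2 : ℝ) ^ (N x ∩ near a).card * (2 : ℝ) ^ (N x ∩ near b).card *
        (2 : ℝ) ^ (N x ∩ near c).card) := by
      calc (2 : ℝ) ^ (cc near N (stW near W a b c) x) ≤ _ :=
            pow_le_pow_right₀ one_le_two h2
        _ = _ := by rw [pow_add, pow_add, pow_add]; ring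
    unfold phi2
    calc (2 : ℝ) ^ (cc near N (stW near W a b c) x) / 2 ^ (d / 2) * g ^ r ≤
        (2 ^ (cc near N W x) *
        ((2 : ℝ) ^ (N x ∩ near a).card * (2 : ℝ) ^ (N x ∩ near b).card *
        (2 : ℝ) ^ (N x ∩ near c).card)) / 2 ^ (d / 2) * g ^ r := by gcongr
      _ = _ := by ring
  have h2 : ∑ a : V, ∑ b : V, ∑ c : V, phi2 near N d g r (stW near W a b c) x ≤
      ∑ a : V, ∑ b : V, ∑ c : V, phi2 near N d g r W x *
        ((2 : ℝ) ^ (N x ∩ near a).card * (2 : ℝ) ^ (N x ∩ near b).card *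
        (2 : ℝ) ^ (N x ∩ near c).card) :=
    Finset.sum_le_sum (fun a _ => Finset.sum_le_sum (fun b _ =>
      Finset.sum_le_sum (fun c _ => h1 a b c)))
  have h3 : ∑ a : V, ∑ b : V, ∑ c : V, phi2 near N d g r W x *
        ((2 : ℝ) ^ (N x ∩ near a).card * (2 : ℝ) ^ (N x ∩ near b).card *
        (2 : ℝ) ^ (N x ∩ near c).card) =
      phi2 near N d g r W x * (∑ a : V, (2 : ℝ) ^ (N x ∩ near a).card) ^ 3 := by
    simp only [← Finset.mul_sum, ← Finset.sum_mul]
    ring
  have h4 : (∑ a : V, (2 : ℝ) ^ (N x ∩ near a).card) ^ 3 ≤ (Fintype.card V : ℝ) ^ 3 * g := by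
    refine le_trans ?_ hg
    have h5 := sum_pow_le near hcard hsymm (N x)
    rw [hN] at h5
    have h6 : 0 ≤ ∑ a : V, (2 : ℝ) ^ (N x ∩ near a).card :=
      Finset.sum_nonneg (fun a _ => by positivity)
    exact pow_le_pow_left₀ h6 h5 3
  have h5 : 0 ≤ phi2 near N d g r W x := by unfold phi2; positivity
  calc _ ≤ _ := h2
    _ = _ := h3
    _ ≤ phi2 near N d g r W x * ((Fintype.card V : ℝ) ^ 3 * g) :=
        mul_le_mul_of_nonneg_left h4 h5
    _ = _ := by unfold phi2; rw [pow_succ]; ring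

theorem core (near : V → Finset V) (hself : ∀ a, a ∈ near a)
    (hcard : ∀ a, (near a).card ≤ 5) (hsymm : ∀ a b, a ∈ near b → b ∈ near a)
    (N : V → Finset V) (d : ℕ) (hd : 60 ≤ d) (hN : ∀ x, (N x).card = d)
    (q g : ℝ) (hq0 : 0 ≤ q)
    (hq : (Fintype.card V : ℝ) ^ 3 - ((d : ℝ) / 3) ^ 3 ≤ (Fintype.card V : ℝ) ^ 3 * q)
    (hg0 : 0 ≤ g) (hg : ((Fintype.card V : ℝ) + 35 * d) ^ 3 ≤ (Fintype.card V : ℝ) ^ 3 * g)
    (hV : 0 < Fintype.card V) :
    ∀ (r : ℕ) (W : Finset V) (t : V → ℕ) (j : ℕ), Good near W t j →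
      ∑ x : V, (phi1 near N d q r W t x + phi2 near N d g r W x) < 1 →
      ∃ (W' : Finset V) (t' : V → ℕ) (j' : ℕ), Good near W' t' j' ∧ ∀ x, Cov N W' t' x := by
  classical
  intro r
  induction r with
  | zero =>
    intro W t j h hlt
    refine ⟨W, t, j, h, ?_⟩
    intro x
    by_contra hx
    have hnn : ∀ y : V, 0 ≤ phi1 near N d q 0 W t y + phi2 near N d g 0 W y := by
      intro y
      have h1 : 0 ≤ phi1 near N d q 0 W t y := by
        unfold phi1
        split_ifs <;> simp
      have h2 : 0 ≤ phi2 near N d g 0 W y := by unfold phi2; positivity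
      linarith
    have h1 : phi1 near N d q 0 W t x + phi2 near N d g 0 W x < 1 :=
      (Finset.single_le_sum (fun y _ => hnn y) (Finset.mem_univ x)).trans_lt hlt
    by_cases h2 : 2 * cc near N W x ≤ d
    · have h3 : phi1 near N d q 0 W t x = 1 := by
        rw [phi1, if_pos ⟨hx, h2⟩, pow_zero]
      have h4 : 0 ≤ phi2 near N d g 0 W x := by unfold phi2; positivity
      linarith
    · have h3 : d / 2 ≤ cc near N W x := by omega
      have h4 : 1 ≤ phi2 near N d g 0 W x := by
        unfold phi2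
        rw [pow_zero, mul_one, le_div_iff₀ (by positivity), one_mul]
        exact pow_le_pow_right₀ one_le_two h3
      have h5 : 0 ≤ phi1 near N d q 0 W t x := by
        unfold phi1
        split_ifs <;> simp
      linarith
  | succ r ih =>
    intro W t j h hlt
    -- some choice does not increase the potential
    have hex : ∃ a b c : V, ∑ x : V, (phi1 near N d q r (stW near W a b c)
        (stT near W t j a b c) x + phi2 near N d g r (stW near W a b c) x) < 1 := by
      by_contra hcon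
      push Not at hcon
      have h1 : (Fintype.card V : ℝ) ^ 3 ≤ ∑ a : V, ∑ b : V, ∑ c : V,
          ∑ x : V, (phi1 near N d q r (stW near W a b c)
            (stT near W t j a b c) x + phi2 near N d g r (stW near W a b c) x) := by
        calc (Fintype.card V : ℝ) ^ 3 = ∑ a : V, ∑ b : V, ∑ c : V, (1 : ℝ) := by
              simp only [Finset.sum_const, Finset.card_univ, nsmul_eq_mul, mul_one]
              ring
          _ ≤ _ := Finset.sum_le_sum (fun a _ => Finset.sum_le_sum (fun b _ =>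
              Finset.sum_le_sum (fun c _ => hcon a b c)))
      have h2 : ∑ a : V, ∑ b : V, ∑ c : V,
          ∑ x : V, (phi1 near N d q r (stW near W a b c)
            (stT near W t j a b c) x + phi2 near N d g r (stW near W a b c) x) =
          ∑ x : V, ∑ a : V, ∑ b : V, ∑ c : V, (phi1 near N d q r (stW near W a b c)
            (stT near W t j a b c) x + phi2 near N d g r (stW near W a b c) x) := by
        have e1 : ∀ a b : V, ∑ c : V,
          ∑ x : V, (phi1 near N d q r (stW near W a b c)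
            (stT near W t j a b c) x + phi2 near N d g r (stW near W a b c) x) =
            ∑ x : V, ∑ c : V, (phi1 near N d q r (stW near W a b c)
            (stT near W t j a b c) x + phi2 near N d g r (stW near W a b c) x) :=
          fun a b => Finset.sum_comm
        have e2 : ∀ a : V, ∑ b : V, ∑ x : V, ∑ c : V, (phi1 near N d q r (stW near W a b c)
            (stT near W t j a b c) x + phi2 near N d g r (stW near W a b c) x) =
            ∑ x : V, ∑ b : V, ∑ c : V, (phi1 near N d q r (stW near W a b c)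
            (stT near W t j a b c) x + phi2 near N d g r (stW near W a b c) x) :=
          fun a => Finset.sum_comm
        simp only [e1, e2]
        exact Finset.sum_comm
      have h3 : ∀ x : V, ∑ a : V, ∑ b : V, ∑ c : V, (phi1 near N d q r (stW near W a b c)
            (stT near W t j a b c) x + phi2 near N d g r (stW near W a b c) x) ≤
          (Fintype.card V : ℝ) ^ 3 * (phi1 near N d q (r + 1) W t x +
            phi2 near N d g (r + 1) W x) := by
        intro x
        have h4 := phi1_step near hself hcard N W t j h d hd x (hN x) q hq0 hq r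
        have h5 := phi2_step near hcard hsymm N W d x (hN x) g hg0 hg r
        simp only [Finset.sum_add_distrib]
        linarith
      have h4 : ∑ x : V, ∑ a : V, ∑ b : V, ∑ c : V, (phi1 near N d q r (stW near W a b c)
            (stT near W t j a b c) x + phi2 near N d g r (stW near W a b c) x) ≤
          (Fintype.card V : ℝ) ^ 3 * ∑ x : V, (phi1 near N d q (r + 1) W t x +
            phi2 near N d g (r + 1) W x) := by
        rw [Finset.mul_sum]
        exact Finset.sum_le_sum (fun x _ => h3 x)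
      have h5 : (0 : ℝ) < (Fintype.card V : ℝ) ^ 3 := by positivity
      rw [h2] at h1
      have h6 : (Fintype.card V : ℝ) ^ 3 * ∑ x : V, (phi1 near N d q (r + 1) W t x +
            phi2 near N d g (r + 1) W x) < (Fintype.card V : ℝ) ^ 3 * 1 :=
        mul_lt_mul_of_pos_left hlt h5
      linarith
    obtain ⟨a, b, c, habc⟩ := hex
    by_cases hacc : Acc near W a b c
    · have e1 : stW near W a b c = W ∪ {a, b, c} := by rw [stW, if_pos hacc]
      have e2 : stT near W t j a b c = newT t j a b c := by rw [stT, if_pos hacc]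
      rw [e1, e2] at habc
      exact ih _ _ (j + 1) (good_step near hself hsymm W t j h a b c hacc) habc
    · have e1 : stW near W a b c = W := by rw [stW, if_neg hacc]
      have e2 : stT near W t j a b c = t := by rw [stT, if_neg hacc]
      rw [e1, e2] at habc
      exact ih _ _ j h habc

end Core

/-- The cyclic neighbourhood. -/
def near5 {n : ℕ} [NeZero n] (a : Fin n) : Finset (Fin n) := {a, a + 1, a + 2, a - 1, a - 2}

theorem exists_triples {n : ℕ} [NeZero n] (N : Fin n → Finset (Fin n)) (d m : ℕ)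
    (hN : ∀ x, (N x).card = d) (hd : 60 ≤ d)
    (hnum : (n : ℝ) * (1 - ((d : ℝ) / (3 * n)) ^ 3) ^ m +
      (n : ℝ) * (1 + 35 * d / n) ^ (3 * m) / 2 ^ (d / 2) < 1) :
    ∃ (W : Finset (Fin n)) (t : Fin n → ℕ), W.Nonempty ∧
      (∀ w ∈ W, w + 1 ∉ W ∧ w + 2 ∉ W) ∧
      (∀ w ∈ W, 3 ≤ (W.filter (fun w' => t w' = t w)).card) ∧
      ∀ x, ∃ w ∈ W, ∀ w' ∈ W, t w' = t w → w' ∈ N x := by
  classical
  have hn : 0 < n := Nat.pos_of_ne_zero (NeZero.ne n)
  have hnR : (0 : ℝ) < n := by exact_mod_cast hn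
  have hdn : d ≤ n := by
    have := Finset.card_le_univ (N 0)
    rw [hN, Fintype.card_fin] at this
    exact this
  have hdnR : (d : ℝ) ≤ n := by exact_mod_cast hdn
  have hn60 : 60 ≤ n := hd.trans hdn
  have hself : ∀ a : Fin n, a ∈ near5 a := fun a => by simp [near5]
  have hcard : ∀ a : Fin n, (near5 a).card ≤ 5 := fun a => Finset.card_le_five
  have hsymm : ∀ a b : Fin n, a ∈ near5 b → b ∈ near5 a := by
    intro a b h
    simp only [near5, Finset.mem_insert, Finset.mem_singleton] at h ⊢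
    rcases h with rfl | rfl | rfl | rfl | rfl <;> simp
  have hq0 : (0 : ℝ) ≤ 1 - ((d : ℝ) / (3 * n)) ^ 3 := by
    have h1 : (d : ℝ) / (3 * n) ≤ 1 := by
      rw [div_le_one (by positivity)]
      linarith
    have h2 : ((d : ℝ) / (3 * n)) ^ 3 ≤ 1 := pow_le_one₀ (by positivity) h1
    linarith
  have hq : (Fintype.card (Fin n) : ℝ) ^ 3 - ((d : ℝ) / 3) ^ 3 ≤
      (Fintype.card (Fin n) : ℝ) ^ 3 * (1 - ((d : ℝ) / (3 * n)) ^ 3) := by
    rw [Fintype.card_fin]
    apply le_of_eq
    field_simp
  have hg0 : (0 : ℝ) ≤ (1 + 35 * (d : ℝ) / n) ^ 3 := by positivity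
  have hg : ((Fintype.card (Fin n) : ℝ) + 35 * d) ^ 3 ≤
      (Fintype.card (Fin n) : ℝ) ^ 3 * (1 + 35 * (d : ℝ) / n) ^ 3 := by
    rw [Fintype.card_fin]
    apply le_of_eq
    field_simp
  have hV : 0 < Fintype.card (Fin n) := by rw [Fintype.card_fin]; exact hn
  have h0 : Good (near5 (n := n)) ∅ (fun _ => 0) 0 := by
    refine ⟨?_, ?_, ?_⟩ <;> intro w hw <;> simp at hw
  have hstart : ∑ x : Fin n, (phi1 near5 N d (1 - ((d : ℝ) / (3 * n)) ^ 3) m ∅ (fun _ => 0) x +
      phi2 near5 N d ((1 + 35 * (d : ℝ) / n) ^ 3) m ∅ x) < 1 := by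
    refine lt_of_le_of_lt ?_ hnum
    have h1 : ∀ x : Fin n, phi1 near5 N d (1 - ((d : ℝ) / (3 * n)) ^ 3) m ∅ (fun _ => 0) x +
      phi2 near5 N d ((1 + 35 * (d : ℝ) / n) ^ 3) m ∅ x ≤
        (1 - ((d : ℝ) / (3 * n)) ^ 3) ^ m + (1 + 35 * (d : ℝ) / n) ^ (3 * m) / 2 ^ (d / 2) := by
      intro x
      refine add_le_add ?_ ?_
      · unfold phi1
        split_ifs
        · exact le_refl _
        · positivity
      · unfold phi2
        have h2 : cc near5 N (∅ : Finset (Fin n)) x = 0 := by
          simp [cc, nearSet]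
        rw [h2, pow_zero, ← pow_mul]
        apply le_of_eq
        ring
    calc _ ≤ ∑ x : Fin n, ((1 - ((d : ℝ) / (3 * n)) ^ 3) ^ m +
          (1 + 35 * (d : ℝ) / n) ^ (3 * m) / 2 ^ (d / 2)) :=
          Finset.sum_le_sum (fun x _ => h1 x)
      _ = _ := by
          rw [Finset.sum_const, Finset.card_univ, Fintype.card_fin, nsmul_eq_mul]
          ring
  obtain ⟨W, t, j, ⟨_, hsp, h3⟩, hcov⟩ := core near5 hself hcard hsymm N d hd hN _ _ hq0 hq hg0 hg
    hV m ∅ (fun _ => 0) 0 h0 hstart
  refine ⟨W, t, ?_, ?_, h3, hcov⟩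
  · obtain ⟨w, hw, _⟩ := hcov 0
    exact ⟨w, hw⟩
  · intro w hw
    have h1 : w + 1 ≠ w := by
      intro h
      have h2 : (1 : Fin n) = 0 := by simpa using h
      have h3 := congrArg Fin.val h2
      rw [Fin.val_one', Fin.val_zero, Nat.mod_eq_of_lt (by omega)] at h3
      omega
    have h2 : w + 2 ≠ w := by
      intro h
      have h2 : (2 : Fin n) = 0 := by simpa using h
      have h3 := congrArg Fin.val h2
      have h4 : ((2 : Fin n) : ℕ) = 2 % n := rfl
      rw [h4, Fin.val_zero, Nat.mod_eq_of_lt (by omega)] at h3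
      omega
    refine ⟨fun h => h1 (hsp w hw _ h (by simp [near5])),
      fun h => h2 (hsp w hw _ h (by simp [near5]))⟩

end Pool.Agent.H10.SF2
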