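import Mathlib
import Pool.Agent.H10.SF2.J
import Pool.Agent.H10.SF2.K

set_option linter.unusedSectionVars false

namespace Pool.Agent.H10.SF2

open Equiv Equiv.Perm Pool.Agent.H47.TCF

/-- `nx` is one cycle. -/
theorem L_nx {n : ℕ} [NeZero n] (x y : Fin n) : SameCycle (nx n) x y := by
  have h := Pool.Agent.H10.EP.nc_nx (n := n)
  unfold nc at h
  have h1 := (Nat.card_eq_one_iff_unique.1 h).1
  have h2 := h1.elim (Quotient.mk (SameCycle.setoid (nx n)) x)
    (Quotient.mk (SameCycle.setoid (nx n)) y)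
  exact Quotient.exact h2

theorem L_two {n : ℕ} [NeZero n] (hn : 3 ≤ n) (k : Fin n) : k + 1 + 1 = k + 2 := by
  have e1 : (1 : Fin n).val = 1 := by
    rw [Fin.val_one', Nat.mod_eq_of_lt (by omega)]
  have e2 : (2 : Fin n).val = 2 := by
    have : (2 : Fin n).val = 2 % n := rfl
    rw [this, Nat.mod_eq_of_lt (by omega)]
  apply Fin.ext
  rw [Fin.val_add, Fin.val_add, Fin.val_add, e1, e2, Nat.mod_add_mod]

/-- A Hamiltonian graph with minimum degree at least `d` has a 2-factor with exactly two cycles,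
as soon as the numerical condition of the selection lemma holds for some `m`. -/
theorem two_of_degree {n : ℕ} [NeZero n] (hn : 3 ≤ n) (G : SimpleGraph (Fin n))
    (hG : G.IsHamiltonian) (d m : ℕ) (hd : 60 ≤ d) (hdeg : ∀ x, d ≤ (G.neighborSet x).ncard)
    (hnum : (n : ℝ) * (1 - ((d : ℝ) / (3 * n)) ^ 3) ^ m +
      (n : ℝ) * (1 + 35 * d / n) ^ (3 * m) / 2 ^ (d / 2) < 1) :
    ∃ F : SimpleGraph (Fin n), F ≤ G ∧ (∀ x, (F.neighborSet x).ncard = 2) ∧
      Nat.card F.ConnectedComponent = 2 := by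
  classical
  obtain ⟨v, hv⟩ := exists_cyclic hn G hG
  have hsub : ∀ k : Fin n, ∃ S ⊆ Finset.univ.filter (fun j => G.Adj (v k) (v j)),
      S.card = d := by
    intro k
    apply Finset.exists_subset_card_eq
    refine (hdeg (v k)).trans ?_
    have h1 : (G.neighborSet (v k)) =
        (((Finset.univ.filter (fun j => G.Adj (v k) (v j))).map v.toEmbedding :
          Finset (Fin n)) : Set (Fin n)) := by
      ext y
      rw [SimpleGraph.mem_neighborSet, Finset.mem_coe, Finset.mem_map]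
      constructor
      · intro h
        refine ⟨v.symm y, Finset.mem_filter.2 ⟨Finset.mem_univ _, ?_⟩, Equiv.apply_symm_apply _ _⟩
        rw [Equiv.apply_symm_apply]
        exact h
      · rintro ⟨j, hj, rfl⟩
        exact (Finset.mem_filter.1 hj).2
    rw [h1, Set.ncard_coe_finset, Finset.card_map]
  choose N hNs hNc using hsub
  obtain ⟨W, t, hne, hsp, h3, hcov⟩ := exists_triples N d m hNc hd hnum
  have hs0 : ∀ k, (v * nx n * v⁻¹ : Perm (Fin n)) (v k) = v (k + 1) := by
    intro k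
    simp [nx_apply]
  refine two_of_triples G (v * nx n * v⁻¹) ?_ ?_ (W.map v.toEmbedding) ?_
    (fun x => t (v.symm x)) ?_ ?_ ?_
  · intro x y
    rw [sameCycle_conj]
    exact L_nx _ _
  · intro x
    have h1 := hv (v.symm x)
    rw [Equiv.apply_symm_apply] at h1
    exact h1
  · obtain ⟨w, hw⟩ := hne
    exact ⟨v w, Finset.mem_map.2 ⟨w, hw, rfl⟩⟩
  · intro w hw
    obtain ⟨k, hk, rfl⟩ := Finset.mem_map.1 hw
    change (v * nx n * v⁻¹ : Perm (Fin n)) (v k) ∉ _ ∧
      (v * nx n * v⁻¹ : Perm (Fin n)) ((v * nx n * v⁻¹ : Perm (Fin n)) (v k)) ∉ _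
    rw [hs0, hs0]
    constructor
    · intro h
      obtain ⟨j, hj, hjk⟩ := Finset.mem_map.1 h
      exact (hsp k hk).1 (v.injective hjk ▸ hj)
    · intro h
      obtain ⟨j, hj, hjk⟩ := Finset.mem_map.1 h
      have h2 : j = k + 1 + 1 := v.injective hjk
      rw [L_two hn] at h2
      exact (hsp k hk).2 (h2 ▸ hj)
  · intro w hw
    obtain ⟨k, hk, rfl⟩ := Finset.mem_map.1 hw
    refine (h3 k hk).trans ?_
    rw [← Finset.card_map v.toEmbedding]
    refine Finset.card_le_card ?_
    intro y hy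
    obtain ⟨j, hj, rfl⟩ := Finset.mem_map.1 hy
    obtain ⟨hj1, hj2⟩ := Finset.mem_filter.1 hj
    refine Finset.mem_filter.2 ⟨Finset.mem_map.2 ⟨j, hj1, rfl⟩, ?_⟩
    change t (v.symm (v j)) = t (v.symm (v k))
    rw [Equiv.symm_apply_apply, Equiv.symm_apply_apply]
    exact hj2
  · intro x
    obtain ⟨w, hw, hwc⟩ := hcov (v.symm x)
    refine ⟨v w, Finset.mem_map.2 ⟨w, hw, rfl⟩, ?_⟩
    intro w' hw' htt
    obtain ⟨k, hk, rfl⟩ := Finset.mem_map.1 hw'
    change t (v.symm (v k)) = t (v.symm (v w)) at htt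
    rw [Equiv.symm_apply_apply, Equiv.symm_apply_apply] at htt
    left
    have h1 := (Finset.mem_filter.1 (hNs _ (hwc k hk htt))).2
    rw [Equiv.apply_symm_apply] at h1
    exact h1

end Pool.Agent.H10.SF2
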