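import Mathlib
import Pool.Agent.H10.SF2.L

/-!
Two-cycle 2-factors: the numbers, and the theorem for minimum degree `21 n^(2/3) (log n)^(1/3)`.
-/

namespace Pool.Agent.H10.SF2

private lemma one_le_log {n : ℕ} (hn : 3 ≤ n) : 1 ≤ Real.log n := by
  have h3 : (3 : ℝ) ≤ n := by exact_mod_cast hn
  rw [Real.le_log_iff_exp_le (by linarith)]
  have := Real.exp_one_lt_d9
  linarith

/-- The numbers, with `m = n / 306`. -/
theorem numbers {n d : ℕ} (hn : 3 ≤ n) (hdn : d < n)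
    (hd : 21 * (n : ℝ) ^ ((2 : ℝ) / 3) * (Real.log n) ^ ((1 : ℝ) / 3) ≤ d) :
    ∃ m : ℕ, 60 ≤ d ∧ (n : ℝ) * (1 - ((d : ℝ) / (3 * n)) ^ 3) ^ m +
      (n : ℝ) * (1 + 35 * d / n) ^ (3 * m) / 2 ^ (d / 2) < 1 := by
  have hn3 : (3 : ℝ) ≤ n := by exact_mod_cast hn
  have hn0 : (0 : ℝ) < n := by linarith
  have hL1 := one_le_log hn
  have hexpL : Real.exp (Real.log n) = n := Real.exp_log hn0
  set L : ℝ := Real.log n with hL
  have hL0 : (0 : ℝ) ≤ L := by linarith
  have hdn' : (d : ℝ) < n := by exact_mod_cast hdn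
  have hd0 : (0 : ℝ) ≤ d := Nat.cast_nonneg d
  -- the cube of the hypothesis
  have h3 : ((21 : ℝ) * (n : ℝ) ^ ((2 : ℝ) / 3) * L ^ ((1 : ℝ) / 3)) ^ 3
      = 9261 * (n : ℝ) ^ 2 * L := by
    rw [mul_pow, mul_pow, ← Real.rpow_natCast ((n : ℝ) ^ ((2 : ℝ) / 3)), ← Real.rpow_mul hn0.le,
      ← Real.rpow_natCast (L ^ ((1 : ℝ) / 3)), ← Real.rpow_mul hL0]
    norm_num
  have hd3 : 9261 * (n : ℝ) ^ 2 * L ≤ (d : ℝ) ^ 3 := by
    rw [← h3]
    exact pow_le_pow_left₀ (by positivity) hd 3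
  have hnL : 9261 * L < n := by
    by_contra hcon
    push Not at hcon
    have h1 : (d : ℝ) ^ 3 < (n : ℝ) ^ 3 := pow_lt_pow_left₀ hdn' hd0 (by norm_num)
    have h2 : (n : ℝ) ^ 3 ≤ 9261 * (n : ℝ) ^ 2 * L := by
      have : (n : ℝ) ^ 2 * n ≤ (n : ℝ) ^ 2 * (9261 * L) :=
        mul_le_mul_of_nonneg_left hcon (by positivity)
      nlinarith
    linarith
  have hdL : 9261 * L ≤ d := by
    by_contra hcon
    push Not at hcon
    have h1 : (d : ℝ) ^ 3 < (9261 * L) ^ 3 := pow_lt_pow_left₀ hcon hd0 (by norm_num)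
    have h2 : (9261 * L) ^ 2 ≤ (n : ℝ) ^ 2 := pow_le_pow_left₀ (by positivity) hnL.le 2
    have h4 : (9261 * L) ^ 2 * (9261 * L) ≤ (n : ℝ) ^ 2 * (9261 * L) :=
      mul_le_mul_of_nonneg_right h2 (by positivity)
    nlinarith
  have hnR : (9261 : ℝ) < n := by nlinarith
  have hnN : 9261 < n := by exact_mod_cast hnR
  have hdR : (9261 : ℝ) ≤ d := by nlinarith
  have hdN : 9261 ≤ d := by exact_mod_cast hdR
  have hL9 : 9 ≤ L := by
    rw [hL, Real.le_log_iff_exp_le hn0]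
    have h1 : Real.exp 9 = Real.exp 1 ^ 9 := by
      rw [← Real.exp_nat_mul]; norm_num
    rw [h1]
    have h2 : Real.exp 1 ^ 9 ≤ (2.7182818286 : ℝ) ^ 9 :=
      pow_le_pow_left₀ (Real.exp_pos _).le Real.exp_one_lt_d9.le 9
    have h4 : (2.7182818286 : ℝ) ^ 9 ≤ 9261 := by norm_num
    linarith
  refine ⟨n / 306, by omega, ?_⟩
  have hm1 : ((n / 306 : ℕ) : ℝ) * 306 ≤ n := by
    have : n / 306 * 306 ≤ n := Nat.div_mul_le_self n 306
    exact_mod_cast this
  have hm2 : 30 * (n : ℝ) ≤ 9485 * ((n / 306 : ℕ) : ℝ) := by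
    have : 30 * n ≤ 9485 * (n / 306) := by omega
    exact_mod_cast this
  set m : ℕ := n / 306
  -- the first term
  have hfirst : (n : ℝ) * (1 - ((d : ℝ) / (3 * n)) ^ 3) ^ m < 1 / 2 := by
    set y : ℝ := ((d : ℝ) / (3 * n)) ^ 3 with hy
    have hyv : y = (d : ℝ) ^ 3 / (27 * (n : ℝ) ^ 3) := by
      rw [hy]; field_simp; ring
    have hy0 : 0 ≤ y := by positivity
    have hy1 : y ≤ 1 := by
      rw [hyv, div_le_one (by positivity)]
      have : (d : ℝ) ^ 3 ≤ (n : ℝ) ^ 3 := pow_le_pow_left₀ hd0 hdn'.le 3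
      nlinarith [pow_pos hn0 3]
    have hmy : L + 3 / 4 ≤ m * y := by
      rw [hyv, ← mul_div_assoc, le_div_iff₀ (by positivity)]
      have h1 : (m : ℝ) * (9261 * (n : ℝ) ^ 2 * L) ≤ m * (d : ℝ) ^ 3 :=
        mul_le_mul_of_nonneg_left hd3 (Nat.cast_nonneg m)
      have h2 : (30 * (n : ℝ)) * ((n : ℝ) ^ 2 * L) ≤ 9485 * (m : ℝ) * ((n : ℝ) ^ 2 * L) :=
        mul_le_mul_of_nonneg_right hm2 (by positivity)
      have h5 : (n : ℝ) ^ 3 * 9 ≤ (n : ℝ) ^ 3 * L :=
        mul_le_mul_of_nonneg_left hL9 (by positivity)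
      nlinarith
    have h1 : (1 - y) ^ m ≤ Real.exp (-(L + 3 / 4)) := by
      calc (1 - y) ^ m ≤ (Real.exp (-y)) ^ m := by
            apply pow_le_pow_left₀ (by linarith)
            have := Real.add_one_le_exp (-y)
            linarith
        _ = Real.exp ((m : ℝ) * (-y)) := by rw [Real.exp_nat_mul]
        _ ≤ Real.exp (-(L + 3 / 4)) := Real.exp_le_exp.mpr (by nlinarith)
    calc (n : ℝ) * (1 - y) ^ m ≤ Real.exp L * Real.exp (-(L + 3 / 4)) := by
          rw [hexpL]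
          exact mul_le_mul_of_nonneg_left h1 hn0.le
      _ = Real.exp (-(3 / 4)) := by rw [← Real.exp_add]; ring_nf
      _ < 1 / 2 := by
          rw [Real.exp_neg, one_div]
          apply inv_strictAnti₀ (by norm_num)
          have := Real.quadratic_le_exp_of_nonneg (x := 3 / 4) (by norm_num)
          linarith
  -- the second term
  have hsecond : (n : ℝ) * (1 + 35 * d / n) ^ (3 * m) / 2 ^ (d / 2) ≤ 1 / 3 := by
    have h1 : (1 + 35 * (d : ℝ) / n) ^ (3 * m) ≤ Real.exp (105 * d / 306) := by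
      have h11 : (1 + 35 * (d : ℝ) / n) ≤ Real.exp (35 * (d : ℝ) / n) := by
        have := Real.add_one_le_exp (35 * (d : ℝ) / n)
        linarith
      calc (1 + 35 * (d : ℝ) / n) ^ (3 * m) ≤ (Real.exp (35 * (d : ℝ) / n)) ^ (3 * m) :=
            pow_le_pow_left₀ (by positivity) h11 _
        _ = Real.exp (((3 * m : ℕ) : ℝ) * (35 * (d : ℝ) / n)) := by rw [Real.exp_nat_mul]
        _ ≤ Real.exp (105 * d / 306) := by
            apply Real.exp_le_exp.mpr
            push_cast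
            rw [show 3 * (m : ℝ) * (35 * (d : ℝ) / n) = (105 * d * m) / n by ring,
              div_le_div_iff₀ hn0 (by norm_num)]
            nlinarith [mul_le_mul_of_nonneg_left hm1 (by positivity : (0 : ℝ) ≤ 105 * d)]
    have h2 : (2 : ℝ) ^ (d / 2) = Real.exp (((d / 2 : ℕ) : ℝ) * Real.log 2) := by
      rw [Real.exp_nat_mul, Real.exp_log (by norm_num)]
    have hh : ((d : ℝ) - 1) ≤ 2 * ((d / 2 : ℕ) : ℝ) := by
      have : d ≤ 2 * (d / 2) + 1 := by omega
      have : (d : ℝ) ≤ 2 * ((d / 2 : ℕ) : ℝ) + 1 := by exact_mod_cast this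
      linarith
    rw [div_le_iff₀ (by positivity), h2]
    calc (n : ℝ) * (1 + 35 * (d : ℝ) / n) ^ (3 * m)
        ≤ Real.exp L * Real.exp (105 * d / 306) := by
          rw [hexpL]
          exact mul_le_mul_of_nonneg_left h1 hn0.le
      _ = Real.exp (-2) * Real.exp (2 + L + 105 * d / 306) := by
          rw [← Real.exp_add, ← Real.exp_add]; ring_nf
      _ ≤ 1 / 3 * Real.exp (((d / 2 : ℕ) : ℝ) * Real.log 2) := by
          apply mul_le_mul _ _ (Real.exp_pos _).le (by norm_num)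
          · rw [Real.exp_neg, one_div]
            apply inv_anti₀ (by norm_num)
            have := Real.quadratic_le_exp_of_nonneg (x := 2) (by norm_num)
            linarith
          · apply Real.exp_le_exp.mpr
            have hlog := Real.log_two_gt_d9
            have h6 : ((d : ℝ) - 1) / 2 * 0.6931471803 ≤ ((d / 2 : ℕ) : ℝ) * Real.log 2 := by
              apply mul_le_mul (by linarith) hlog.le (by norm_num) (Nat.cast_nonneg _)
            nlinarith
  linarith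

/-- Minimum degree `21 n^(2/3) (log n)^(1/3)` is enough. -/
theorem two_of_large_degree {n d : ℕ} (hn : 3 ≤ n)
    (hd : 21 * (n : ℝ) ^ ((2 : ℝ) / 3) * (Real.log n) ^ ((1 : ℝ) / 3) ≤ d)
    (G : SimpleGraph (Fin n)) (hG : G.IsHamiltonian) (hdeg : ∀ v, d ≤ (G.neighborSet v).ncard) :
    ∃ F : SimpleGraph (Fin n), F ≤ G ∧ (∀ x, (F.neighborSet x).ncard = 2) ∧
      Nat.card F.ConnectedComponent = 2 := by
  have hdn : d < n := by
    have h1 := hdeg ⟨0, by omega⟩
    have h2 : (G.neighborSet ⟨0, by omega⟩).ncard < (Set.univ : Set (Fin n)).ncard := by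
      apply Set.ncard_lt_ncard
      · rw [Set.ssubset_univ_iff]
        intro h
        have h3 : (⟨0, by omega⟩ : Fin n) ∈ G.neighborSet ⟨0, by omega⟩ := by rw [h]; trivial
        exact G.loopless.irrefl _ h3
      · exact Set.toFinite _
    rw [Set.ncard_univ, Nat.card_eq_fintype_card, Fintype.card_fin] at h2
    omega
  have : NeZero n := ⟨by omega⟩
  obtain ⟨m, h60, hnum⟩ := numbers hn hdn hd
  exact two_of_degree hn G hG d m h60 hdeg hnum

end Pool.Agent.H10.SF2
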